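import Pool.Agent.TBirG.Main

/-!
# The scalar of an idempotent on a connected part of the set of winding number one

Paper proof. Let `Phi = sy phi 1`, `A l = T (sy phi 1) - l`, `M l = Sa * A l`. For `l ∉ J phi` with `wd phi l = 1`:
(a) `M l` is a unit: `Sa * T Psi = T (fourier (-1) * Psi)` (`T_mul_left`, `Sa = T (fourier (-1))`) and
`fourier (-1) * (Phi - l)` is the symbol of `w ↦ w⁻¹ (phi w - l)`, of winding number `0` (`wind_mul`,
`wind` of `w⁻¹` is `-1`: from `wind_mul` and `wind_sub_const` with `a = 0`), so `exists_hasWH` and `HasWH.isUnit`.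
(b) `A l = M l * S` (`Sa_T_S` of TBirG/Kf for `Phi - l`).
(c) Call `κ : Hardy →L[ℂ] ℂ` an `l`-functional if `κ ∘ A l = 0`. `k_l = coL 0 ∘ (M l)⁻¹` is one
(`coL 0 ∘ S = 0`), `k_l (M l (mono 0)) = 1`. If `κ` is an `l`-functional then `κ ∘ M l` vanishes on the range of
`S` (the `g` with `co g 0 = 0`), so `κ ∘ M l = κ (M l (mono 0)) • coL 0` and `κ = κ (M l (mono 0)) • k_l`.
(d) `κ ∘ P` is an `l`-functional if `κ` is (`P` commutes with `A l`). So there is `a l` with
`κ ∘ P = a l • κ` for all `l`-functionals, `a l = k_l (P (M l (mono 0)))`, and `(a l)^2 = a l`.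
(e) `l ↦ k_l (P (M l (mono 0)))` is continuous at the points `l ∉ J phi` with `wd phi l = 1` (`Ring.inverse` is
continuous at units, `M` is continuous; the condition is open: `wd_loc`, `J phi` closed). It is `0` or `1`, so
it is constant on the preconnected set `A`.
(f) Let `z0` be simple with `SF d phi P z0 c` (`s`, `L` as in `SF`) and `z ∈ ball z0 s`, `‖z‖ < 1`,
`phi z ∈ A`. `κ g = ev z (L z g)` is a `phi z`-functional: `A (phi z) = T (qs phi z) * (S - z)` (`fac_one`),
`L z * T (qs phi z) = 1`, `ev_S_sub`. For `g = T (qs phi z) (mono 0)`: `κ g = ev z (mono 0) = 1` (`ev_mono`) and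
`κ (P g) = c` (last clause of `SF`). So `c = a (phi z)`.
If no `z0` as in the statement exists any value of `a` works.
-/

set_option autoImplicit false

open MeasureTheory Complex Set Filter Topology Metric AddCircle
open scoped ComplexConjugate InnerProductSpace ENNReal

namespace Pool.Agent.TBirR

open Pool.Agent.TBir Pool.Agent.TBirG

private theorem wind_inv : wind (fun w : ℂ => w⁻¹) = -1 := by
  have hne : ∀ z ∈ sphere (0 : ℂ) 1, z ≠ 0 := by
    rintro z hz rfl
    simp at hz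
  have h1 := wind_mul (f := fun w : ℂ => w⁻¹) (g := fun w : ℂ => w - 0)
    (fun z hz => analyticAt_id.fun_inv (hne z hz)) (fun z _ => analyticAt_id.sub analyticAt_const)
    (fun z hz => inv_ne_zero (hne z hz)) (fun z hz => by rw [sub_zero]; exact hne z hz)
  have h2 : wind (fun w : ℂ => w - 0) = 1 := by
    rw [wind_sub_const (by simp)]
    simp
  have h3 : wind (fun w : ℂ => w⁻¹ * (w - 0)) = wind fun _ : ℂ => (1 : ℂ) := by
    refine wind_congr fun z hz => ?_
    filter_upwards [isOpen_ne.mem_nhds (hne z hz)] with w hw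
    rw [sub_zero, inv_mul_cancel₀ hw]
  have h4 : wind (fun _ : ℂ => (1 : ℂ)) = 0 := by
    unfold wind
    simp [circleIntegral]
  rw [h3, h4, h2] at h1
  linear_combination -h1

/-- `M l = Sa (T - l)`. -/
private noncomputable def lM (Ph : Hardy →L[ℂ] Hardy) (l : ℂ) : Hardy →L[ℂ] Hardy :=
  Sa * (Ph - l • (1 : Hardy →L[ℂ] Hardy))

private theorem lM_continuous (Ph : Hardy →L[ℂ] Hardy) : Continuous (lM Ph) := by
  unfold lM
  fun_prop

private theorem lM_isUnit {phi : ℂ → ℂ} (hphi : AnalyticOnNhd ℂ phi (sphere 0 1)) {Phi : CT}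
    (hPhi : ∀ x, Phi x = phi (e x)) {l : ℂ} (hl : l ∉ J phi) (hn : wd phi l = 1) :
    IsUnit (lM (T Phi) l) := by
  have hne : ∀ z ∈ sphere (0 : ℂ) 1, z ≠ 0 := by
    rintro z hz rfl
    simp at hz
  have hl' : ∀ z ∈ sphere (0 : ℂ) 1, phi z - l ≠ 0 := fun z hz h => hl ⟨z, hz, sub_eq_zero.1 h⟩
  have h1 := wind_mul (f := fun w : ℂ => w⁻¹) (g := fun w : ℂ => phi w - l)
    (fun z hz => analyticAt_id.fun_inv (hne z hz)) (fun z hz => (hphi z hz).sub analyticAt_const)
    (fun z hz => inv_ne_zero (hne z hz)) hl'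
  have h2 : wind (fun w : ℂ => phi w - l) = 1 := hn
  rw [wind_inv, h2, neg_add_cancel] at h1
  obtain ⟨C, eta, _, heta, hW⟩ := exists_hasWH (psi := fun w => w⁻¹ * (phi w - l))
    (fun z hz => (analyticAt_id.fun_inv (hne z hz)).mul ((hphi z hz).sub analyticAt_const))
    (fun z hz => mul_ne_zero (inv_ne_zero (hne z hz)) (hl' z hz))
    (Psi := fourier (-1) * (Phi - algebraMap ℂ CT l)) (fun x => by
      simp only [Algebra.algebraMap_eq_smul_one, ContinuousMap.sub_apply, ContinuousMap.mul_apply,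
        ContinuousMap.smul_apply, ContinuousMap.one_apply, smul_eq_mul, mul_one]
      rw [hPhi, fourier_eq_e, zpow_neg, zpow_one]) (n := 0) (by rw [h1]; simp)
  have h3 := hW.isUnit heta
  rw [T_mul_left (minus_fourier (by norm_num)), T_sub_smul] at h3
  exact h3

/-- `T - l = M l S`. -/
private theorem lM_S (Phi : CT) (l : ℂ) (f : Hardy) :
    lM (T Phi) l (S f) = (T Phi - l • (1 : Hardy →L[ℂ] Hardy)) f := by
  have h1 := Sa_T_S (Phi - algebraMap ℂ CT l)
  rw [T_sub_smul] at h1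
  exact congrArg (fun B : Hardy →L[ℂ] Hardy => B f) h1

private theorem S_Sa (f : Hardy) : f = co f 0 • mono 0 + S (Sa f) := by
  refine ext_co fun n => ?_
  rw [co_add, co_smul, co_mono]
  cases n with
  | zero => rw [co_S_zero]; simp
  | succ n => rw [co_S_succ, co_Sa]; simp

/-- A functional vanishing on the range of `T - l`, on `M l f`. -/
private theorem fun_M {Phi : CT} {l : ℂ} {kap : Hardy →L[ℂ] ℂ}
    (hk : ∀ g, kap ((T Phi - l • (1 : Hardy →L[ℂ] Hardy)) g) = 0) (f : Hardy) :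
    kap (lM (T Phi) l f) = co f 0 * kap (lM (T Phi) l (mono 0)) := by
  conv_lhs => rw [S_Sa f]
  rw [map_add, map_add, map_smul, map_smul, lM_S, hk, add_zero, smul_eq_mul]

/-- The scalar. -/
private noncomputable def sc (Ph P : Hardy →L[ℂ] Hardy) (l : ℂ) : ℂ :=
  coL 0 (Ring.inverse (lM Ph l) (P (lM Ph l (mono 0))))

/-- A functional vanishing on the range of `T - l`. -/
private theorem fun_eq {Phi : CT} {l : ℂ} (hu : IsUnit (lM (T Phi) l)) {kap : Hardy →L[ℂ] ℂ}
    (hk : ∀ g, kap ((T Phi - l • (1 : Hardy →L[ℂ] Hardy)) g) = 0) (g : Hardy) :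
    kap g = coL 0 (Ring.inverse (lM (T Phi) l) g) * kap (lM (T Phi) l (mono 0)) := by
  have h1 : lM (T Phi) l (Ring.inverse (lM (T Phi) l) g) = g :=
    congrArg (fun B : Hardy →L[ℂ] Hardy => B g) (Ring.mul_inverse_cancel _ hu)
  conv_lhs => rw [← h1]
  rw [fun_M hk, coL_apply]

private theorem fun_P {Phi : CT} {P : Hardy →L[ℂ] Hardy} (hP : P * T Phi = T Phi * P) {l : ℂ}
    (hu : IsUnit (lM (T Phi) l)) {kap : Hardy →L[ℂ] ℂ}
    (hk : ∀ g, kap ((T Phi - l • (1 : Hardy →L[ℂ] Hardy)) g) = 0) (g : Hardy) :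
    kap (P g) = sc (T Phi) P l * kap g := by
  have hPc : ∀ x, P (T Phi x) = T Phi (P x) := fun x =>
    congrArg (fun B : Hardy →L[ℂ] Hardy => B x) hP
  have hk2 : ∀ g, (kap.comp P) ((T Phi - l • (1 : Hardy →L[ℂ] Hardy)) g) = 0 := by
    intro g
    have h1 : P ((T Phi - l • (1 : Hardy →L[ℂ] Hardy)) g) =
        (T Phi - l • (1 : Hardy →L[ℂ] Hardy)) (P g) := by
      change P (T Phi g - l • g) = T Phi (P g) - l • P g
      rw [map_sub, map_smul, hPc]
    change kap (P ((T Phi - l • (1 : Hardy →L[ℂ] Hardy)) g)) = 0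
    rw [h1, hk]
  have h2 := fun_eq hu hk2 g
  have h3 := fun_eq hu hk (P (lM (T Phi) l (mono 0)))
  have h4 := fun_eq hu hk g
  change kap (P g) = coL 0 (Ring.inverse (lM (T Phi) l) g) *
    kap (P (lM (T Phi) l (mono 0))) at h2
  rw [h2, h3, h4, sc]
  ring

private theorem sc_idem {Phi : CT} {P : Hardy →L[ℂ] Hardy} (hP : P * T Phi = T Phi * P)
    (hP2 : P * P = P) {l : ℂ} (hu : IsUnit (lM (T Phi) l)) :
    sc (T Phi) P l = 0 ∨ sc (T Phi) P l = 1 := by
  have hPP : ∀ x, P (P x) = P x := fun x => congrArg (fun B : Hardy →L[ℂ] Hardy => B x) hP2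
  have hk : ∀ g, ((coL 0).comp (Ring.inverse (lM (T Phi) l)))
      ((T Phi - l • (1 : Hardy →L[ℂ] Hardy)) g) = 0 := by
    intro g
    rw [← lM_S]
    have h1 : Ring.inverse (lM (T Phi) l) (lM (T Phi) l (S g)) = S g :=
      congrArg (fun B : Hardy →L[ℂ] Hardy => B (S g)) (Ring.inverse_mul_cancel _ hu)
    change coL 0 (Ring.inverse (lM (T Phi) l) (lM (T Phi) l (S g))) = 0
    rw [h1, coL_apply, co_S_zero]
  have h1 := fun_P hP hu hk (P (lM (T Phi) l (mono 0)))
  rw [hPP] at h1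
  change sc (T Phi) P l = sc (T Phi) P l * sc (T Phi) P l at h1
  have h2 : sc (T Phi) P l * (sc (T Phi) P l - 1) = 0 := by linear_combination -h1
  rcases mul_eq_zero.1 h2 with h3 | h3
  · exact Or.inl h3
  · exact Or.inr (sub_eq_zero.1 h3)

private theorem sc_continuousAt {Ph P : Hardy →L[ℂ] Hardy} {l : ℂ} (hu : IsUnit (lM Ph l)) :
    ContinuousAt (sc Ph P) l := by
  have h1 : ContinuousAt (lM Ph) l := (lM_continuous Ph).continuousAt
  have h2 : ContinuousAt (fun l => Ring.inverse (lM Ph l)) l := by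
    obtain ⟨u, hu'⟩ := hu
    have h3 : ContinuousAt Ring.inverse (lM Ph l) := by
      rw [← hu']
      exact NormedRing.inverse_continuousAt u
    exact h3.comp h1
  unfold sc
  exact (coL 0).continuous.continuousAt.comp
    (h2.clm_apply (P.continuous.continuousAt.comp (h1.clm_apply continuousAt_const)))

theorem exists_scalar {d : ℝ} (hd : 0 < d) (hd1 : d < 1) {phi : ℂ → ℂ}
    (hphi : DifferentiableOn ℂ phi (ann d)) {P : Hardy →L[ℂ] Hardy}
    (hP : P * T (sy phi 1) = T (sy phi 1) * P) (hP2 : P * P = P) {A : Set ℂ}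
    (hA : IsPreconnected A) (hA1 : ∀ l ∈ A, l ∉ J phi ∧ wd phi l = 1) :
    ∃ a : ℂ, ∀ z0 c, Simple phi z0 → SF d phi P z0 c →
      (∀ eps > 0, ∃ z ∈ ball z0 eps, ‖z‖ < 1 ∧ phi z ∈ A) → c = a := by
  rcases A.eq_empty_or_nonempty with rfl | ⟨l0, hl0⟩
  · refine ⟨0, fun z0 c _ _ h => ?_⟩
    obtain ⟨z, _, _, hz⟩ := h 1 one_pos
    exact absurd hz (notMem_empty _)
  have han := analyticOnNhd_sphere hd hphi
  have hsy : ∀ x, sy phi 1 x = phi (e x) := fun x => by
    rw [sy_apply hd (by linarith) one_pos le_rfl hphi, Complex.ofReal_one, one_mul]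
  have hun : ∀ l ∈ A, IsUnit (lM (T (sy phi 1)) l) := fun l hl =>
    lM_isUnit han hsy (hA1 l hl).1 (hA1 l hl).2
  have hcont : ContinuousOn (sc (T (sy phi 1)) P) A := fun l hl =>
    (sc_continuousAt (hun l hl)).continuousWithinAt
  have hconst : ∀ l ∈ A, sc (T (sy phi 1)) P l = sc (T (sy phi 1)) P l0 := by
    intro l hl
    have himg : IsPreconnected (sc (T (sy phi 1)) P '' A) := hA.image _ hcont
    have hsub2 : sc (T (sy phi 1)) P '' A ⊆ {0, 1} := by
      rintro _ ⟨w, hw, rfl⟩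
      exact sc_idem hP hP2 (hun w hw)
    have hfin : (sc (T (sy phi 1)) P '' A).Finite := (Set.toFinite {0, 1}).subset hsub2
    by_contra hne
    exact himg.infinite_of_nontrivial ⟨_, ⟨l, hl, rfl⟩, _, ⟨l0, hl0, rfl⟩, hne⟩ hfin
  refine ⟨sc (T (sy phi 1)) P l0, fun z0 c _ hSF h => ?_⟩
  obtain ⟨s, L, hs, hsub, _, h2, _, h4⟩ := hSF
  obtain ⟨z, hz, hz1, hzA⟩ := h s hs
  have h5 : ev z (mono 0) = 1 := by rw [ev_mono hz1]; simp
  have hLx : ∀ x, L z (T (qs phi z) x) = x := fun x => by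
    have := congrArg (fun B : Hardy →L[ℂ] Hardy => B x) (h2 z hz)
    simpa using this
  have hk : ∀ g, ((ev z).comp (L z)) ((T (sy phi 1) - phi z • (1 : Hardy →L[ℂ] Hardy)) g) = 0 := by
    intro g
    have hfac := congrArg (fun B : Hardy →L[ℂ] Hardy => B g)
      (fac_one hd hd1 hphi (ann_half hd (hsub hz)))
    change (T (sy phi 1) - phi z • (1 : Hardy →L[ℂ] Hardy)) g =
      T (qs phi z) ((S - z • (1 : Hardy →L[ℂ] Hardy)) g) at hfac
    change ev z (L z ((T (sy phi 1) - phi z • (1 : Hardy →L[ℂ] Hardy)) g)) = 0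
    rw [hfac, hLx, ev_S_sub hz1, sub_self, zero_mul]
  have h6 := fun_P hP (hun _ hzA) hk (T (qs phi z) (mono 0))
  change ev z (L z (P (T (qs phi z) (mono 0)))) =
    sc (T (sy phi 1)) P (phi z) * ev z (L z (T (qs phi z) (mono 0))) at h6
  rw [h4 z hz hz1, hLx, h5, mul_one, mul_one, hconst _ hzA] at h6
  exact h6

end Pool.Agent.TBirR
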