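import Pool.Agent.TBirR.Zero
import Pool.Agent.TBirR.Link

/-!
# Nonnegative winding numbers, connected set of winding number one near the special points
-/

set_option autoImplicit false

open MeasureTheory Complex Set Filter Topology Metric AddCircle
open scoped ComplexConjugate InnerProductSpace ENNReal

namespace Pool.Agent.TBirR

open Pool.Agent.TBir Pool.Agent.TBirG

/-- Either the inner winding numbers at `l` are nonnegative, or near `l` the winding numbers off the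
curve are `0` and `1`, and the points with winding number `1` are in a connected set of such points. -/
def Good (phi : ℂ → ℂ) (l : ℂ) : Prop :=
  Inn phi l ∨ ∃ A : Set ℂ, IsPreconnected A ∧ (∀ l' ∈ A, l' ∉ J phi ∧ wd phi l' = 1) ∧
    ∀ᶠ l' in 𝓝 l, l' ∉ J phi → wd phi l' = 0 ∨ l' ∈ A

theorem wd_nonneg {phi : ℂ → ℂ} (hphi : AnalyticOnNhd ℂ phi (sphere 0 1))
    (hg : ∀ l, Good phi l) : ∀ l ∉ J phi, 0 ≤ (wd phi l).re := by
  intro l hl
  rcases hg l with h | ⟨A, -, hA, h⟩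
  · exact wd_of_NN hphi hl h
  · rcases h.self_of_nhds hl with h1 | h1
    · rw [h1]
      simp
    · rw [(hA l h1).2]
      simp

theorem inn_simple {d : ℝ} (hd : 0 < d) (hd1 : d < 1) {phi : ℂ → ℂ}
    (hphi : DifferentiableOn ℂ phi (ann d)) (hwd : ∀ l ∉ J phi, 0 ≤ (wd phi l).re) {z0 : ℂ}
    (h : Simple phi z0) : Inn phi (phi z0) := by
  obtain ⟨m, hm, s, hs, -, hs'⟩ := wd_simple hd hd1 hphi h
  obtain ⟨z, hz, hz1⟩ := tendsto_out h.1 hs
  obtain ⟨h1, h2⟩ := hs' z hz hz1.ne'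
  have h3 := hwd _ h1
  rw [h2, if_neg (by linarith), add_zero, Complex.intCast_re] at h3
  exact hm.2 (by exact_mod_cast h3)

/-- Points with nonnegative inner winding number: all values off a finite set. -/
theorem fin_bad {d : ℝ} (hd : 0 < d) (hd1 : d < 1) {phi : ℂ → ℂ}
    (hphi : DifferentiableOn ℂ phi (ann d)) (hwd : ∀ l ∉ J phi, 0 ≤ (wd phi l).re)
    (hfin : {z : ℂ | ‖z‖ = 1 ∧ ¬ Simple phi z}.Finite) : {l : ℂ | ¬ Inn phi l}.Finite := by
  refine (hfin.image phi).subset ?_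
  intro l hl
  have hpa : AnalyticOnNhd ℂ phi (sphere 0 1) := analyticOnNhd_sphere hd hphi
  have hlJ : l ∈ J phi := by
    by_contra h
    exact hl (inn_of_wd hpa h (hwd l h))
  obtain ⟨z, hz, rfl⟩ := hlJ
  exact ⟨z, ⟨by simpa using hz, fun h => hl (inn_simple hd hd1 hphi hwd h)⟩, rfl⟩

/-- The scalar is the same at all simple points near a special point. -/
theorem loc_bad {d : ℝ} (hd : 0 < d) (hd1 : d < 1) {phi : ℂ → ℂ}
    (hphi : DifferentiableOn ℂ phi (ann d)) (hwd : ∀ l ∉ J phi, 0 ≤ (wd phi l).re) {z0 : ℂ}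
    (hz0 : ‖z0‖ = 1) {P : Hardy →L[ℂ] Hardy} (hP : P * T (sy phi 1) = T (sy phi 1) * P)
    (hP2 : P * P = P) {A : Set ℂ} (hA : IsPreconnected A)
    (hA1 : ∀ l' ∈ A, l' ∉ J phi ∧ wd phi l' = 1)
    (hA2 : ∀ᶠ l' in 𝓝 (phi z0), l' ∉ J phi → wd phi l' = 0 ∨ l' ∈ A) :
    ∃ s > 0, ∃ a : ℂ, ∀ z1 ∈ ball z0 s, Simple phi z1 → ∀ c, SF d phi P z1 c → c = a := by
  obtain ⟨a, ha⟩ := exists_scalar hd hd1 hphi hP hP2 hA hA1
  have hcont : ContinuousAt phi z0 :=
    (hphi.continuousOn).continuousAt ((isOpen_ann d).mem_nhds (sphere_mem_ann hd hz0))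
  obtain ⟨t, ht, h1⟩ := Metric.eventually_nhds_iff_ball.1 (hcont.eventually hA2)
  refine ⟨t, ht, a, fun z1 hz1 hs1 c hc => ha z1 c hs1 hc fun eps heps => ?_⟩
  obtain ⟨m, hm, s, hs, -, hs'⟩ := wd_simple hd hd1 hphi hs1
  have hm0 : 0 ≤ m := hm.1 (inn_simple hd hd1 hphi hwd hs1)
  obtain ⟨ε, hε, h2⟩ := Metric.isOpen_iff.1 (isOpen_ball (x := z0) (ε := t)) z1 hz1
  obtain ⟨z', h3, h4⟩ := tendsto_in hs1.1 (lt_min heps (lt_min hs hε))
  have h5 : z' ∈ ball z1 eps := ball_subset_ball (min_le_left _ _) h3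
  have h6 : z' ∈ ball z1 s :=
    ball_subset_ball ((min_le_right _ _).trans (min_le_left _ _)) h3
  have h7 : z' ∈ ball z0 t :=
    h2 (ball_subset_ball ((min_le_right _ _).trans (min_le_right _ _)) h3)
  obtain ⟨h8, h9⟩ := hs' z' h6 h4.ne
  rw [if_pos h4] at h9
  refine ⟨z', h5, h4, (h1 z' h7 h8).resolve_left fun h => ?_⟩
  rw [h9] at h
  have : ((m + 1 : ℤ) : ℂ) = ((0 : ℤ) : ℂ) := by
    push_cast
    exact h
  have h10 : m + 1 = 0 := by exact_mod_cast this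
  omega

/-- The scalar is the same at all simple points. -/
theorem exists_const_good {d : ℝ} (hd : 0 < d) (hd1 : d < 1) {phi : ℂ → ℂ}
    (hphi : DifferentiableOn ℂ phi (ann d)) (hNC : NC phi)
    (hfin : {z : ℂ | ‖z‖ = 1 ∧ ¬ Simple phi z}.Finite) (hg : ∀ l, Good phi l)
    {P : Hardy →L[ℂ] Hardy} (hP : P * T (sy phi 1) = T (sy phi 1) * P) (hP2 : P * P = P) :
    ∃ c : ℂ, (c = 0 ∨ c = 1) ∧ ∀ z, Simple phi z → SF d phi P z c := by
  have hpa : AnalyticOnNhd ℂ phi (sphere 0 1) := analyticOnNhd_sphere hd hphi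
  have hwd := wd_nonneg hpa hg
  choose! cc hcc hSF using fun z (hz : Simple phi z) =>
    exists_SF hd hd1 hphi hz (inn_simple hd hd1 hphi hwd hz) hP hP2
  obtain ⟨V, hV⟩ : ∃ V : ℂ → Set ℂ, V = fun k => {z | ∃ ρ > 0, ∀ z1 ∈ ball z ρ, Simple phi z1 →
      cc z1 = k} := ⟨_, rfl⟩
  have hVo : ∀ k, IsOpen (V k) := by
    intro k
    rw [Metric.isOpen_iff, hV]
    rintro z ⟨ρ, hρ, h⟩
    refine ⟨ρ / 2, half_pos hρ, fun w hw => ⟨ρ / 2, half_pos hρ, fun z1 hz1 => h z1 ?_⟩⟩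
    rw [mem_ball] at hw hz1 ⊢
    linarith [dist_triangle z1 w z]
  have hloc : ∀ z : ℂ, ‖z‖ = 1 → ∃ s > 0, ∀ z1 ∈ ball z s, ∀ z2 ∈ ball z s, Simple phi z1 →
      Simple phi z2 → cc z1 = cc z2 := by
    intro z hz
    rcases hg (phi z) with h | ⟨A, hA, hA1, hA2⟩
    · obtain ⟨s, hs, h1⟩ := loc_const hd hd1 hphi hNC hz h P
      exact ⟨s, hs, fun z1 hz1 z2 hz2 s1 s2 => h1 z1 hz1 z2 hz2 s1 s2 _ _ (hSF z1 s1) (hSF z2 s2)⟩
    · obtain ⟨s, hs, a, h1⟩ := loc_bad hd hd1 hphi hwd hz hP hP2 hA hA1 hA2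
      exact ⟨s, hs, fun z1 hz1 z2 hz2 s1 s2 =>
        (h1 z1 hz1 s1 _ (hSF z1 s1)).trans (h1 z2 hz2 s2 _ (hSF z2 s2)).symm⟩
  have hcov : sphere (0 : ℂ) 1 ⊆ V 0 ∪ V 1 := by
    intro z hz
    have hz' : ‖z‖ = 1 := by simpa using hz
    obtain ⟨s, hs, h⟩ := hloc z hz'
    obtain ⟨z2, hz2, hsim⟩ := exists_simple hfin hz' hs
    have h1 : ∀ z1 ∈ ball z s, Simple phi z1 → cc z1 = cc z2 := fun z1 hz1 hs1 =>
      h z1 hz1 z2 hz2 hs1 hsim
    rcases hcc z2 hsim with h2 | h2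
    · left
      rw [hV]
      exact ⟨s, hs, fun z1 hz1 hs1 => (h1 z1 hz1 hs1).trans h2⟩
    · right
      rw [hV]
      exact ⟨s, hs, fun z1 hz1 hs1 => (h1 z1 hz1 hs1).trans h2⟩
  have hdisj : ∀ z ∈ sphere (0 : ℂ) 1, z ∈ V 0 → z ∈ V 1 → False := by
    intro z hz h0 h1
    rw [hV] at h0 h1
    obtain ⟨ρ0, hρ0, h0⟩ := h0
    obtain ⟨ρ1, hρ1, h1⟩ := h1
    obtain ⟨z2, hz2, hsim⟩ := exists_simple hfin (show ‖z‖ = 1 by simpa using hz) (lt_min hρ0 hρ1)
    have e0 := h0 z2 (ball_subset_ball (min_le_left _ _) hz2) hsim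
    have e1 := h1 z2 (ball_subset_ball (min_le_right _ _) hz2) hsim
    rw [e0] at e1
    exact zero_ne_one e1
  have hpre : IsPreconnected (sphere (0 : ℂ) 1) := by
    refine isPreconnected_sphere ?_ _ _
    rw [Complex.rank_real_complex]
    norm_num
  have hone : ∀ k, sphere (0 : ℂ) 1 ⊆ V k → ∀ z, Simple phi z → cc z = k := by
    intro k hk z hz
    have h1 := hk (show z ∈ sphere (0 : ℂ) 1 by simpa using hz.1)
    rw [hV] at h1
    obtain ⟨ρ, hρ, h⟩ := h1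
    exact h z (mem_ball_self hρ) hz
  by_cases h0 : (sphere (0 : ℂ) 1 ∩ V 0).Nonempty
  · have h1 : ¬ (sphere (0 : ℂ) 1 ∩ V 1).Nonempty := by
      intro h1
      obtain ⟨z, hz, hz'⟩ := hpre (V 0) (V 1) (hVo 0) (hVo 1) hcov h0 h1
      exact hdisj z hz hz'.1 hz'.2
    have h2 : sphere (0 : ℂ) 1 ⊆ V 0 := fun z hz => (hcov hz).resolve_right
      fun h => h1 ⟨z, hz, h⟩
    refine ⟨0, Or.inl rfl, fun z hz => ?_⟩
    have := hSF z hz
    rwa [hone 0 h2 z hz] at this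
  · have h2 : sphere (0 : ℂ) 1 ⊆ V 1 := fun z hz => (hcov hz).resolve_left
      fun h => h0 ⟨z, hz, h⟩
    refine ⟨1, Or.inr rfl, fun z hz => ?_⟩
    have := hSF z hz
    rwa [hone 1 h2 z hz] at this

/-- Every idempotent of the commutant is trivial. -/
theorem triv_good {d : ℝ} (hd : 0 < d) (hd1 : d < 1) {phi : ℂ → ℂ}
    (hphi : DifferentiableOn ℂ phi (ann d)) {Phi : CT}
    (hPhi : ∀ x, Phi x = phi (e x)) (hsy : Phi = sy phi 1) (hNC : NC phi)
    (hfin : {z : ℂ | ‖z‖ = 1 ∧ ¬ Simple phi z}.Finite) (hg : ∀ l, Good phi l)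
    {P : Hardy →L[ℂ] Hardy} (hP : P * T (sy phi 1) = T (sy phi 1) * P) (hP2 : P * P = P) :
    P = 0 ∨ P = 1 := by
  have hpa : AnalyticOnNhd ℂ phi (sphere 0 1) := analyticOnNhd_sphere hd hphi
  have hwd := wd_nonneg hpa hg
  have key : ∀ Q : Hardy →L[ℂ] Hardy, Q * Q = Q → (∀ z, Simple phi z → SF d phi Q z 0) →
      Q = 0 := by
    intro Q hQ hS
    ext f : 1
    have hf : Q (Q f) = Q f := congrArg (fun B : Hardy →L[ℂ] Hardy => B f) hQ
    exact eq_zero_fin hd hd1 hphi hPhi hsy hNC hwd (fin_bad hd hd1 hphi hwd hfin)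
      (mem_all hd hd1 hphi hPhi hsy hfin (fun l hl => inn_of_wd hpa hl (hwd l hl)) hS hf)
  obtain ⟨c, hc, hS⟩ := exists_const_good hd hd1 hphi hNC hfin hg hP hP2
  rcases hc with rfl | rfl
  · exact Or.inl (key P hP2 hS)
  · right
    have h1 : (1 - P) * (1 - P) = 1 - P := by
      rw [mul_sub, mul_one, sub_mul, one_mul, hP2, sub_self, sub_zero]
    have h2 := key (1 - P) h1 fun z hz => by
      obtain ⟨s, L, hs, hsub, g0, g1, g2, g3⟩ := hS z hz
      refine ⟨s, L, hs, hsub, g0, g1, fun w hw => ?_, fun w hw hw1 g => ?_⟩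
      · have e1 := g1 w hw
        have e2 := g2 w hw
        rw [sub_mul, one_mul, mul_sub, mul_sub, e2, e1, mul_one]
      · have e1 : L w (T (qs phi w) g) = g :=
          congrArg (fun B : Hardy →L[ℂ] Hardy => B g) (g1 w hw)
        have e2 := g3 w hw hw1 g
        have e3 : (1 - P) (T (qs phi w) g) = T (qs phi w) g - P (T (qs phi w) g) := rfl
        rw [e3, map_sub, map_sub, e1, e2]
        ring
    rw [sub_eq_zero] at h2
    exact h2.symm

theorem bir_good {phi : ℂ → ℂ} (hana : AnalyticOnNhd ℂ phi (sphere 0 1)) {E : Set ℂ}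
    (hE : E.Finite) (hinj : InjOn phi (sphere 0 1 \ E)) (hg : ∀ l, Good phi l) {Phi : CT}
    (hPhi : ∀ x, Phi x = phi (e x)) : CompletelyIrreducible (T Phi) := by
  obtain ⟨d, hd, hd1, hsub⟩ := exists_ann_subset (isOpen_analyticAt ℂ phi) hana
  have hphi : DifferentiableOn ℂ phi (ann d) := fun w hw =>
    (hsub ⟨hw.1.le, hw.2.le⟩).differentiableAt.differentiableWithinAt
  have hsy : Phi = sy phi 1 := by
    ext x
    rw [sy_apply hd (by linarith) one_pos le_rfl hphi, Complex.ofReal_one, one_mul, hPhi]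
  rw [bir_iff]
  intro P hP2 hP
  rw [hsy] at hP
  exact triv_good hd hd1 hphi hPhi hsy (nc_of_inj hana hE hinj) (fin_simple hana hE hinj) hg hP hP2

/-- The same with the signs of the winding numbers reversed. -/
def GoodO (phi : ℂ → ℂ) (l : ℂ) : Prop :=
  Out phi l ∨ ∃ A : Set ℂ, IsPreconnected A ∧ (∀ l' ∈ A, l' ∉ J phi ∧ wd phi l' = -1) ∧
    ∀ᶠ l' in 𝓝 l, l' ∉ J phi → wd phi l' = 0 ∨ l' ∈ A

theorem mem_J_pstar {phi : ℂ → ℂ} {l : ℂ} : conj l ∈ J (pstar phi) ↔ l ∈ J phi := by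
  constructor
  · rintro ⟨w, hw, hwl⟩
    have hw1 : ‖w‖ = 1 := by simpa using hw
    rw [pstar_sphere phi hw1] at hwl
    exact ⟨w, hw, (starRingEnd ℂ).injective hwl⟩
  · rintro ⟨w, hw, rfl⟩
    have hw1 : ‖w‖ = 1 := by simpa using hw
    exact ⟨w, hw, pstar_sphere phi hw1⟩

theorem wd_pstar_eq {phi : ℂ → ℂ} (hana : AnalyticOnNhd ℂ phi (sphere 0 1)) {l : ℂ}
    (h : l ∉ J phi) : wd (pstar phi) (conj l) = -wd phi l := by
  obtain ⟨n, hn⟩ := wd_int hana h
  obtain ⟨m, hm⟩ := wd_int (pstar_ana hana) (fun h3 => h (mem_J_pstar.1 h3))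
  have h1 := wd_pstar hana h
  rw [hn, hm, Complex.intCast_re, Complex.intCast_re] at h1
  rw [hn, hm]
  have h2 : m = -n := by exact_mod_cast h1
  rw [h2]
  push_cast
  ring

theorem good_pstar {phi : ℂ → ℂ} (hana : AnalyticOnNhd ℂ phi (sphere 0 1)) (hNC : NC phi) {l : ℂ}
    (h : GoodO phi l) : Good (pstar phi) (conj l) := by
  rcases h with h | ⟨A, hA, hA1, hA2⟩
  · exact Or.inl (inn_pstar hana hNC h)
  · right
    have hcc : ∀ v : ℂ, conj (conj v) = v := Complex.conj_conj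
    refine ⟨(fun v => conj v) '' A, hA.image _ Complex.continuous_conj.continuousOn, ?_, ?_⟩
    · rintro _ ⟨v, hv, rfl⟩
      obtain ⟨h1, h2⟩ := hA1 v hv
      refine ⟨fun h3 => h1 (mem_J_pstar.1 h3), ?_⟩
      simp only
      rw [wd_pstar_eq hana h1, h2, neg_neg]
    · have h1 : Tendsto (fun v : ℂ => conj v) (𝓝 (conj l)) (𝓝 l) := by
        have := (Complex.continuous_conj.tendsto (conj l))
        rwa [hcc] at this
      filter_upwards [h1.eventually hA2] with v hv hvJ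
      have h2 : conj v ∉ J phi := fun h3 => by
        apply hvJ
        have := mem_J_pstar.2 h3
        rwa [hcc] at this
      have h4 := wd_pstar_eq hana h2
      rw [hcc] at h4
      rcases hv h2 with h3 | h3
      · left
        rw [h4, h3, neg_zero]
      · right
        exact ⟨_, h3, hcc v⟩

theorem bir_goodO {phi : ℂ → ℂ} (hana : AnalyticOnNhd ℂ phi (sphere 0 1)) {E : Set ℂ}
    (hE : E.Finite) (hinj : InjOn phi (sphere 0 1 \ E)) (hg : ∀ l, GoodO phi l) {Phi : CT}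
    (hPhi : ∀ x, Phi x = phi (e x)) : CompletelyIrreducible (T Phi) := by
  have hNC := nc_of_inj hana hE hinj
  rw [← bir_adj, adjoint_T]
  refine bir_good (pstar_ana hana) hE ?_ (fun l => ?_) (Phi := star Phi) fun x => ?_
  · intro a ha b hb hab
    rw [pstar_sphere phi (by simpa using ha.1), pstar_sphere phi (by simpa using hb.1)] at hab
    exact hinj ha hb ((starRingEnd ℂ).injective hab)
  · have := good_pstar hana hNC (hg (conj l))
    rwa [Complex.conj_conj] at this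
  · rw [pstar_e, ← hPhi]
    rfl

theorem main_good {phi : ℂ → ℂ} (hana : AnalyticOnNhd ℂ phi (sphere 0 1)) {E : Set ℂ}
    (hE : E.Finite) (hinj : InjOn phi (sphere 0 1 \ E))
    (hg : (∀ l, Good phi l) ∨ (∀ l, GoodO phi l)) :
    (∀ f ∈ H2, ∃! g, IsToeplitz phi f g) ∧ BIR H2 (IsToeplitz phi) := by
  have hc : Continuous fun x : UnitAddCircle => phi (e x) := by
    refine hana.continuousOn.comp_continuous continuous_e fun x => ?_
    rw [mem_sphere_zero_iff_norm]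
    exact norm_e x
  obtain ⟨Phi, hPhi⟩ : ∃ Phi : CT, ∀ x, Phi x = phi (e x) := ⟨⟨_, hc⟩, fun _ => rfl⟩
  refine ⟨fun f hf => ?_, ?_⟩
  · obtain ⟨f', rfl⟩ := exists_incl hf
    exact ⟨_, isToeplitz_incl hPhi f', fun g hg => isToeplitz_unique hg (isToeplitz_incl hPhi f')⟩
  · rw [bir_iff_rel hPhi]
    rcases hg with h | h
    · exact bir_good hana hE hinj h hPhi
    · exact bir_goodO hana hE hinj h hPhi

end Pool.Agent.TBirR
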