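import Pool.Agent.TBirG.Main

/-!
# Lower bounds for Toeplitz operators given by a factorisation
-/

set_option autoImplicit false

open MeasureTheory Complex Set Filter Topology Metric AddCircle
open scoped ComplexConjugate InnerProductSpace ENNReal

namespace Pool.Agent.TBirR

open Pool.Agent.TBir Pool.Agent.TBirG

/-- `A` is bounded below by `c`. -/
def LB (c : ℝ) (A : Hardy →L[ℂ] Hardy) : Prop := ∀ h, c * ‖h‖ ≤ ‖A h‖

theorem LB.mul {a b : ℝ} {A B : Hardy →L[ℂ] Hardy} (ha : 0 ≤ a) (hA : LB a A) (hB : LB b B) :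
    LB (a * b) (A * B) := fun h => by
  have h1 := hA (B h)
  have h2 := mul_le_mul_of_nonneg_left (hB h) ha
  change a * b * ‖h‖ ≤ ‖A (B h)‖
  linarith

theorem LB.of_left {c : ℝ} (hc : 0 < c) {A B : Hardy →L[ℂ] Hardy} (hB : ‖B‖ ≤ c)
    (h : B * A = 1) : LB c⁻¹ A := fun v => by
  have h1 : B (A v) = v := congrArg (fun X : Hardy →L[ℂ] Hardy => X v) h
  have h2 : ‖v‖ ≤ c * ‖A v‖ := by
    conv_lhs => rw [← h1]
    exact (B.le_opNorm _).trans (mul_le_mul_of_nonneg_right hB (norm_nonneg _))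
  rw [inv_mul_le_iff₀ hc]
  exact h2

theorem norm_S_apply (h : Hardy) : ‖S h‖ = ‖h‖ := by
  refine le_antisymm ?_ ?_
  · have := S.le_opNorm h
    have h1 := norm_S_le
    nlinarith [norm_nonneg h]
  · have h1 : Sa (S h) = h := congrArg (fun X : Hardy →L[ℂ] Hardy => X h)
      (T_fourier_neg_mul (n := 1))
    conv_lhs => rw [← h1]
    exact evB_norm_Sa _

theorem lb_S_sub (z : ℂ) : LB |1 - ‖z‖| (S - z • (1 : Hardy →L[ℂ] Hardy)) := fun h => by
  have h1 : (S - z • (1 : Hardy →L[ℂ] Hardy)) h = S h - z • h := rfl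
  rw [h1]
  have h2 := abs_norm_sub_norm_le (S h) (z • h)
  rw [norm_S_apply, norm_smul] at h2
  have h3 : |‖h‖ - ‖z‖ * ‖h‖| = |1 - ‖z‖| * ‖h‖ := by
    have : ‖h‖ - ‖z‖ * ‖h‖ = (1 - ‖z‖) * ‖h‖ := by ring
    rw [this, abs_mul, abs_of_nonneg (norm_nonneg h)]
  rw [← h3]
  exact h2

theorem lb_one_sub {z : ℂ} (hz : ‖z‖ < 1) :
    LB |1 - ‖z‖| ((1 : Hardy →L[ℂ] Hardy) - z • Sa) := fun h => by
  have h1 : ((1 : Hardy →L[ℂ] Hardy) - z • Sa) h = h - z • Sa h := rfl
  rw [h1, abs_of_pos (by linarith)]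
  have h2 := norm_sub_norm_le h (z • Sa h)
  rw [norm_smul] at h2
  have h3 := mul_le_mul_of_nonneg_left (evB_norm_Sa h) (norm_nonneg z)
  linarith

theorem norm_fourier_le (n : ℤ) : ‖(fourier n : CT)‖ ≤ 1 := by
  rw [ContinuousMap.norm_le _ zero_le_one]
  intro x
  rw [fourier_apply]
  exact (Circle.norm_coe _).le

theorem lb_fourier {x : ℤ} (hx : 0 ≤ x) : LB 1 (T (fourier x)) := by
  obtain ⟨n, rfl⟩ := Int.eq_ofNat_of_zero_le hx
  have := LB.of_left one_pos ((norm_T_le _).trans (norm_fourier_le (-(n : ℤ))))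
    (T_fourier_neg_mul (n := n))
  rwa [inv_one] at this

theorem norm_sum_le {C eta : ℝ} (heta : 0 < eta) :
    ∃ K : ℝ, 0 < K ∧ ∀ b : ℕ → ℂ, Dec C eta b → ‖plusS b‖ ≤ K ∧ ‖minusS b‖ ≤ K := by
  have hs : Summable fun j : ℕ => |C| * Real.exp (-eta) ^ j := by
    apply Summable.mul_left
    apply summable_geometric_of_lt_one (Real.exp_pos _).le
    rw [Real.exp_lt_one_iff]
    linarith
  have hnn : 0 ≤ ∑' j : ℕ, |C| * Real.exp (-eta) ^ j := tsum_nonneg fun j => by positivity
  refine ⟨(∑' j : ℕ, |C| * Real.exp (-eta) ^ j) + 1, by linarith, fun b hb => ?_⟩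
  have key : ∀ s : ℕ → ℤ, ‖∑' j : ℕ, b j • (fourier (s j) : CT)‖ ≤
      ∑' j : ℕ, |C| * Real.exp (-eta) ^ j := by
    intro s
    refine tsum_of_norm_bounded hs.hasSum fun j => ?_
    rw [norm_smul]
    have h1 : ‖b j‖ ≤ |C| * Real.exp (-eta) ^ j := by
      refine (hb j).trans ?_
      have : Real.exp (-(eta * j)) = Real.exp (-eta) ^ j := by
        rw [← Real.exp_nat_mul]
        congr 1
        ring
      rw [this]
      exact mul_le_mul_of_nonneg_right (le_abs_self C) (by positivity)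
    calc ‖b j‖ * ‖(fourier (s j) : CT)‖ ≤ ‖b j‖ * 1 :=
          mul_le_mul_of_nonneg_left (norm_fourier_le _) (norm_nonneg _)
      _ ≤ _ := by rw [mul_one]; exact h1
  exact ⟨(key fun j => (j : ℤ)).trans (by linarith), (key fun j => -(j : ℤ)).trans (by linarith)⟩

theorem lb_ind {ι : Type*} [DecidableEq ι] (z : ι → ℂ) (s : Finset ι) :
    ∀ (x : ℤ) (A B : CT) (a b : ℝ), Minus A → Plus B → 0 ≤ a → 0 ≤ b → LB a (T A) → LB b (T B) →
      0 ≤ x + ((s.filter fun i => ‖z i‖ < 1).card : ℤ) →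
      LB (a * b * ∏ i ∈ s, |1 - ‖z i‖|)
        (T (fourier x * (A * B) * ∏ i ∈ s, (fourier 1 - algebraMap ℂ CT (z i)))) := by
  induction s using Finset.induction_on with
  | empty =>
    intro x A B a b hA hB ha hb hLA hLB hx
    have hx' : 0 ≤ x := by simpa using hx
    rw [Finset.prod_empty, Finset.prod_empty, mul_one, mul_one, idx_T_factor hA hB]
    have h1 := hLA.mul ha ((lb_fourier hx').mul zero_le_one hLB)
    rwa [one_mul] at h1
  | insert i s hi ih =>
    intro x A B a b hA hB ha hb hLA hLB hx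
    rw [Finset.prod_insert hi, Finset.prod_insert hi]
    by_cases hc : ‖z i‖ < 1 ∧ x < 0
    · have e1 : (fourier x : CT) * (A * B) * ((fourier 1 - algebraMap ℂ CT (z i)) *
          ∏ j ∈ s, (fourier 1 - algebraMap ℂ CT (z j))) =
          fourier (x + 1) * (((1 - z i • fourier (-1)) * A) * B) *
            ∏ j ∈ s, (fourier 1 - algebraMap ℂ CT (z j)) := by
        have e2 : (fourier x : CT) * (fourier 1 - algebraMap ℂ CT (z i)) =
            fourier (x + 1) * (1 - z i • fourier (-1)) := by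
          rw [mul_sub, mul_sub, idx_fourier_mul, mul_one, mul_smul_comm, idx_fourier_mul,
            Algebra.algebraMap_eq_smul_one, mul_smul_comm, mul_one]
          congr 3
          ring
        calc _ = ((fourier x : CT) * (fourier 1 - algebraMap ℂ CT (z i))) * (A * B) *
            ∏ j ∈ s, (fourier 1 - algebraMap ℂ CT (z j)) := by ring
          _ = _ := by rw [e2]; ring
      have hm : Minus (1 - z i • fourier (-1) : CT) := by
        have h1 : Minus (1 : CT) := by
          have := minus_algebraMap (1 : ℂ)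
          rwa [map_one] at this
        have h2 : Minus (z i • fourier (-1) : CT) := by
          have := (minus_algebraMap (z i)).mul (minus_fourier (n := -1) (by norm_num))
          rwa [Algebra.algebraMap_eq_smul_one, smul_mul_assoc, one_mul] at this
        exact h1.sub h2
      have hT : T ((1 - z i • fourier (-1)) * A) = ((1 : Hardy →L[ℂ] Hardy) - z i • Sa) * T A := by
        rw [T_mul_left hm, T_sub, T_one, T_smul]
        rfl
      have h3 := ih (x + 1) ((1 - z i • fourier (-1)) * A) B (|1 - ‖z i‖| * a) b (hm.mul hA) hB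
        (by positivity) hb (by rw [hT]; exact (lb_one_sub hc.1).mul (abs_nonneg _) hLA) hLB (by
          rw [Finset.filter_insert, if_pos hc.1, Finset.card_insert_of_notMem (by simp [hi])] at hx
          push_cast at hx
          linarith)
      rw [e1]
      have e3 : a * b * (|1 - ‖z i‖| * ∏ j ∈ s, |1 - ‖z j‖|) =
          |1 - ‖z i‖| * a * b * ∏ j ∈ s, |1 - ‖z j‖| := by ring
      rw [e3]
      exact h3
    · have e1 : (fourier x : CT) * (A * B) * ((fourier 1 - algebraMap ℂ CT (z i)) *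
          ∏ j ∈ s, (fourier 1 - algebraMap ℂ CT (z j))) =
          fourier x * (A * (B * (fourier 1 - algebraMap ℂ CT (z i)))) *
            ∏ j ∈ s, (fourier 1 - algebraMap ℂ CT (z j)) := by ring
      have hp : Plus ((fourier 1 : CT) - algebraMap ℂ CT (z i)) :=
        (plus_fourier (by norm_num)).sub (plus_algebraMap _)
      have hT : T (B * (fourier 1 - algebraMap ℂ CT (z i))) =
          T B * (S - z i • (1 : Hardy →L[ℂ] Hardy)) := by
        rw [T_mul_right _ hp, T_sub, T_algebraMap]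
        rfl
      have h3 := ih x A (B * (fourier 1 - algebraMap ℂ CT (z i))) a (b * |1 - ‖z i‖|) hA
        (hB.mul hp) ha (by positivity) hLA (by rw [hT]; exact hLB.mul hb (lb_S_sub _)) (by
          rw [Finset.filter_insert] at hx
          split_ifs at hx with h4
          · have h5 : 0 ≤ x := not_lt.1 fun h => hc ⟨h4, h⟩
            positivity
          · exact hx)
      rw [e1]
      have e3 : a * b * (|1 - ‖z i‖| * ∏ j ∈ s, |1 - ‖z j‖|) =
          a * (b * |1 - ‖z i‖|) * ∏ j ∈ s, |1 - ‖z j‖| := by ring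
      rw [e3]
      exact h3

/-- The lower bound. -/
theorem lower {C eta : ℝ} (heta : 0 < eta) : ∃ c : ℝ, 0 < c ∧ ∀ (Psi : CT) (x : ℤ),
    HasWH C eta Psi x → ∀ (k : ℕ) (z : Fin k → ℂ),
      0 ≤ x + ((Finset.univ.filter fun i => ‖z i‖ < 1).card : ℤ) →
      LB (c * ∏ i, |1 - ‖z i‖|) (T (Psi * ∏ i, (fourier 1 - algebraMap ℂ CT (z i)))) := by
  obtain ⟨K, hK, hK'⟩ := norm_sum_le (C := C) heta
  refine ⟨K⁻¹ * K⁻¹, by positivity, ?_⟩
  rintro Psi x ⟨bp, bm, cp, cm, hbp, hbm, hcp, hcm, h1, h2, rfl⟩ k z hx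
  have sbm := summable_of_dec heta hbm
  have scp := summable_of_dec heta hcp
  have scm := summable_of_dec heta hcm
  refine lb_ind z Finset.univ x (minusS cm) (plusS cp) K⁻¹ K⁻¹ (minus_minusS scm) (plus_plusS scp)
    (by positivity) (by positivity) ?_ ?_ hx
  · refine LB.of_left hK ((norm_T_le _).trans (hK' bm hbm).2) ?_
    rw [← T_mul_left (minus_minusS sbm), h2, T_one]
  · refine LB.of_left hK ((norm_T_le _).trans (hK' bp hbp).1) ?_
    rw [← T_mul_right _ (plus_plusS scp), h1, T_one]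

end Pool.Agent.TBirR
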