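import Pool.Agent.TBirR.Fz
import Pool.Agent.TBirR.Lb

/-!
# The operators `T - l` are bounded below by a power of the distance to the curve
-/

set_option autoImplicit false

open MeasureTheory Complex Set Filter Topology Metric AddCircle
open scoped ComplexConjugate InnerProductSpace ENNReal

namespace Pool.Agent.TBirR

open Pool.Agent.TBir Pool.Agent.TBirG

theorem wind_prod {ι : Type*} (s : Finset ι) {a : ι → ℂ} (ha : ∀ i ∈ s, ‖a i‖ ≠ 1) :
    AnalyticOnNhd ℂ (fun w : ℂ => ∏ i ∈ s, (w - a i)) (sphere 0 1) ∧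
      (∀ z ∈ sphere (0 : ℂ) 1, ∏ i ∈ s, (z - a i) ≠ 0) ∧
      (wind fun w : ℂ => ∏ i ∈ s, (w - a i)) = ∑ i ∈ s, (if ‖a i‖ < 1 then (1 : ℂ) else 0) := by
  classical
  induction s using Finset.induction_on with
  | empty =>
    refine ⟨fun z _ => ?_, fun z _ => ?_, ?_⟩
    · simp only [Finset.prod_empty]
      exact analyticAt_const
    · simp
    · simp only [Finset.prod_empty, Finset.sum_empty]
      unfold wind
      simp [circleIntegral]
  | insert i s hi ih =>
    obtain ⟨h1, h2, h3⟩ := ih fun j hj => ha j (Finset.mem_insert_of_mem hj)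
    have hi1 := ha i (Finset.mem_insert_self i s)
    have e : (fun w : ℂ => ∏ j ∈ insert i s, (w - a j)) =
        fun w => (w - a i) * ∏ j ∈ s, (w - a j) := by
      funext w
      rw [Finset.prod_insert hi]
    have g1 : AnalyticOnNhd ℂ (fun w : ℂ => w - a i) (sphere 0 1) := fun z _ =>
      analyticAt_id.sub analyticAt_const
    have g2 : ∀ z ∈ sphere (0 : ℂ) 1, z - a i ≠ 0 := by
      intro z hz h0
      rw [mem_sphere_zero_iff_norm, sub_eq_zero.1 h0] at hz
      exact hi1 hz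
    refine ⟨by rw [e]; exact g1.mul h1, fun z hz => ?_, ?_⟩
    · rw [Finset.prod_insert hi]
      exact mul_ne_zero (g2 z hz) (h2 z hz)
    · rw [e, wind_mul g1 h1 g2 h2, h3, wind_sub_const hi1, Finset.sum_insert hi]

/-- The winding number from a factorisation. -/
theorem wd_of_fac {phi : ℂ → ℂ} {d : ℝ} (hd : 0 < d) {l : ℂ} (hl : l ∉ J phi) {x : ℤ} {k : ℕ}
    {z : Fin k → ℂ} {psi : ℂ → ℂ} (h1 : DifferentiableOn ℂ psi (ann d))
    (h2 : ∀ w ∈ ann d, psi w ≠ 0) (hx : wind psi = x) (hz : ∀ i, z i ∈ ann d ∧ phi (z i) = l)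
    (hfac : ∀ w ∈ ann d, phi w - l = psi w * ∏ i, (w - z i)) :
    wd phi l = ((x + ((Finset.univ.filter fun i => ‖z i‖ < 1).card : ℤ) : ℤ) : ℂ) := by
  have hne : ∀ i, ‖z i‖ ≠ 1 := fun i h => hl ⟨z i, by simpa using h, (hz i).2⟩
  obtain ⟨p1, p2, p3⟩ := wind_prod Finset.univ (a := z) fun i _ => hne i
  have e1 : wd phi l = wind (fun w => psi w * ∏ i, (w - z i)) := by
    refine wind_congr fun w hw => ?_
    filter_upwards [(isOpen_ann d).mem_nhds (mem_sphere_ann hd hw)] with v hv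
    exact hfac v hv
  rw [e1, wind_mul (analyticOnNhd_sphere hd h1) p1 (fun w hw => h2 w (mem_sphere_ann hd hw)) p2, p3,
    hx, Finset.sum_boole]
  push_cast
  rfl

/-- Distance of `l` to the curve and distance of the zeros to the circle. -/
theorem dist_zero {phi : ℂ → ℂ} {d : ℝ} (hd : 0 < d) (hd1 : d < 1)
    (hphi : DifferentiableOn ℂ phi (ann d)) (q : ℂ) (rho : ℝ) :
    ∃ c : ℝ, 0 < c ∧ ∀ l ∈ ball q rho, ∀ z ∈ ann d, phi z = l →
      c * infDist l (J phi) ≤ |1 - ‖z‖| := by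
  obtain ⟨B, hB⟩ := exists_bdd (half_lt_self hd) (hphi.deriv (isOpen_ann d))
  have hB0 : 0 ≤ B := (norm_nonneg _).trans (hB 1 ⟨by simp [hd], by simp [hd]⟩)
  obtain ⟨D0, hD0⟩ : ∃ D0 : ℝ, D0 = |rho| + dist q (phi 1) + 1 := ⟨_, rfl⟩
  have hD0p : 0 < D0 := by rw [hD0]; positivity
  refine ⟨min (B + 1)⁻¹ (d / 2 / D0), lt_min (by positivity) (by positivity), ?_⟩
  intro l hl z hz hzl
  have hn0 : 0 < ‖z‖ := by linarith [hz.1]
  have hnc : (‖z‖ : ℂ) ≠ 0 := by exact_mod_cast hn0.ne'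
  have hi0 : 0 ≤ infDist l (J phi) := infDist_nonneg
  by_cases hc : |1 - ‖z‖| < d / 2
  · obtain ⟨w, hw⟩ : ∃ w : ℂ, w = z / ‖z‖ := ⟨_, rfl⟩
    have hw1 : ‖w‖ = 1 := by
      rw [hw, norm_div, Complex.norm_real, norm_norm, div_self hn0.ne']
    have hzw : z = (‖z‖ : ℂ) * w := by
      rw [hw]
      field_simp
    have hseg : segment ℝ w z ⊆ ann (d / 2) := by
      rintro v ⟨a, b, ha, hb, hab, rfl⟩
      have e1 : a • w + b • z = ((a + b * ‖z‖ : ℝ) : ℂ) * w := by
        rw [Complex.real_smul, Complex.real_smul]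
        conv_lhs => rw [hzw]
        push_cast
        ring
      have e2 : ‖a • w + b • z‖ = a + b * ‖z‖ := by
        rw [e1, norm_mul, hw1, mul_one, Complex.norm_real, Real.norm_eq_abs,
          abs_of_nonneg (by positivity)]
      have e3 : a + b * ‖z‖ - 1 = b * (‖z‖ - 1) := by
        have : a = 1 - b := by linarith
        rw [this]
        ring
      have hb1 : b ≤ 1 := by linarith
      rw [abs_lt] at hc
      refine ⟨?_, ?_⟩ <;> rw [e2] <;> nlinarith
    have h1 : ‖phi z - phi w‖ ≤ B * ‖z - w‖ := by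
      refine Convex.norm_image_sub_le_of_norm_deriv_le (s := segment ℝ w z) (fun v hv => ?_)
        (fun v hv => hB v (hseg hv)) (convex_segment w z) (left_mem_segment ℝ w z)
        (right_mem_segment ℝ w z)
      exact (hphi.differentiableAt ((isOpen_ann d).mem_nhds (ann_half hd (hseg hv))))
    have h2 : ‖z - w‖ = |1 - ‖z‖| := by
      have : z - w = ((‖z‖ - 1 : ℝ) : ℂ) * w := by
        conv_lhs => rw [hzw]
        push_cast
        ring
      rw [this, norm_mul, hw1, mul_one, Complex.norm_real, Real.norm_eq_abs, abs_sub_comm]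
    have h3 : infDist l (J phi) ≤ dist l (phi w) :=
      infDist_le_dist_of_mem ⟨w, by simpa using hw1, rfl⟩
    rw [dist_eq_norm, ← hzl] at h3
    rw [hzl] at h3 h1
    have h4 : infDist l (J phi) ≤ B * |1 - ‖z‖| := by
      rw [h2] at h1
      exact h3.trans h1
    have h5 : infDist l (J phi) ≤ (B + 1) * |1 - ‖z‖| := by
      have := abs_nonneg (1 - ‖z‖)
      linarith
    calc min (B + 1)⁻¹ (d / 2 / D0) * infDist l (J phi) ≤ (B + 1)⁻¹ * infDist l (J phi) :=
          mul_le_mul_of_nonneg_right (min_le_left _ _) hi0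
      _ ≤ |1 - ‖z‖| := by
        rw [inv_mul_le_iff₀ (by positivity)]
        exact h5
  · have h3 : infDist l (J phi) ≤ dist l (phi 1) :=
      infDist_le_dist_of_mem ⟨1, by simp, rfl⟩
    have h4 : dist l (phi 1) ≤ D0 := by
      have h5 := dist_triangle l q (phi 1)
      rw [mem_ball] at hl
      have := le_abs_self rho
      rw [hD0]
      linarith
    calc min (B + 1)⁻¹ (d / 2 / D0) * infDist l (J phi) ≤ d / 2 / D0 * D0 :=
          mul_le_mul (min_le_right _ _) (h3.trans h4) hi0 (by positivity)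
      _ = d / 2 := by field_simp
      _ ≤ |1 - ‖z‖| := not_lt.1 hc

theorem grow {phi : ℂ → ℂ} (hphi : AnalyticOnNhd ℂ phi (sphere 0 1)) (hNC : NC phi) {Phi : CT}
    (hPhi : ∀ x, Phi x = phi (e x)) (q : ℂ) : ∃ (rho C : ℝ) (N : ℕ), 0 < rho ∧ 0 ≤ C ∧
      ∀ l ∈ ball q rho, l ∉ J phi → 0 ≤ (wd phi l).re → ∀ h : Hardy,
        ‖h‖ ≤ C * (infDist l (J phi))⁻¹ ^ N * ‖(T Phi - l • (1 : Hardy →L[ℂ] Hardy)) h‖ := by
  obtain ⟨rho, d, m, M, x, k, hrho, hd, hd1, hm, hfz⟩ := exists_fz hphi hNC q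
  obtain ⟨C0, eta, hC0, heta, hWH⟩ := hasWH (M := M) hd hd1 hm x
  obtain ⟨c, hc, hlow⟩ := lower (C := C0) heta
  have hphid : DifferentiableOn ℂ phi (ann d) := by
    obtain ⟨z, psi, h1, -, -, -, -, h2⟩ := hfz q (mem_ball_self hrho)
    have h3 : DifferentiableOn ℂ (fun w => psi w * ∏ i, (w - z i) + q) (ann d) := by
      refine (h1.mul ?_).add_const q
      exact (DifferentiableOn.fun_finsetProd fun i _ => differentiableOn_id.sub_const _)
    exact h3.congr fun w hw => by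
      rw [← h2 w hw]
      ring
  obtain ⟨c2, hc2, hdist⟩ := dist_zero hd hd1 hphid q rho
  refine ⟨rho, c⁻¹ * c2⁻¹ ^ k, k, hrho, by positivity, ?_⟩
  intro l hl hlJ hwd h
  obtain ⟨z, psi, h1, h2, h3, h4, -, h5⟩ := hfz l hl
  have hpsi0 : ∀ w ∈ ann d, psi w ≠ 0 := fun w hw h0 => by
    have := (h2 w hw).1
    rw [h0, norm_zero] at this
    linarith
  have hpc : Continuous fun t : UnitAddCircle => psi (e t) :=
    h1.continuousOn.comp_continuous continuous_e fun t => e_mem_ann hd t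
  obtain ⟨Psi, hPsi⟩ : ∃ Psi : CT, ∀ t, Psi t = psi (e t) := ⟨⟨_, hpc⟩, fun _ => rfl⟩
  have hsym : Phi - algebraMap ℂ CT l = Psi * ∏ i, (fourier 1 - algebraMap ℂ CT (z i)) := by
    ext t
    have e1 := h5 (e t) (e_mem_ann hd t)
    rw [ContinuousMap.sub_apply, ContinuousMap.mul_apply, ContinuousMap.coe_prod,
      Finset.prod_apply, hPhi, hPsi]
    simp only [ContinuousMap.sub_apply, fourier_one_apply]
    exact e1
  have hn : 0 ≤ x + ((Finset.univ.filter fun i => ‖z i‖ < 1).card : ℤ) := by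
    have e1 := wd_of_fac hd hlJ h1 hpsi0 h3 h4 h5
    rw [e1, Complex.intCast_re] at hwd
    exact_mod_cast hwd
  have h6 := hlow Psi x (hWH psi h1 h2 h3 Psi hPsi) k z hn h
  rw [← hsym, T_sub_smul] at h6
  obtain ⟨y, hy⟩ : ∃ y : ℝ, y = infDist l (J phi) := ⟨_, rfl⟩
  have hJc : IsClosed (J phi) := (isCompact_J hphi).isClosed
  have hJn : (J phi).Nonempty := ⟨phi 1, 1, by simp, rfl⟩
  have hy0 : 0 < y := by
    rw [hy]
    exact (hJc.notMem_iff_infDist_pos hJn).1 hlJ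
  have h7 : (c2 * y) ^ k ≤ ∏ i, |1 - ‖z i‖| := by
    have e1 : (c2 * y) ^ k = ∏ _i : Fin k, (c2 * y) := by simp
    rw [e1]
    refine Finset.prod_le_prod (fun i _ => by positivity) fun i _ => ?_
    rw [hy]
    exact hdist l hl (z i) (h4 i).1 (h4 i).2
  have h8 : c * (c2 * y) ^ k * ‖h‖ ≤ ‖(T Phi - l • (1 : Hardy →L[ℂ] Hardy)) h‖ :=
    (mul_le_mul_of_nonneg_right (mul_le_mul_of_nonneg_left h7 hc.le) (norm_nonneg _)).trans h6
  rw [← hy]
  have h9 : ‖h‖ = c⁻¹ * c2⁻¹ ^ k * y⁻¹ ^ k * (c * (c2 * y) ^ k * ‖h‖) := by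
    rw [mul_pow, inv_pow, inv_pow]
    have e1 : c2 ^ k ≠ 0 := by positivity
    have e2 : y ^ k ≠ 0 := by positivity
    field_simp
  rw [h9]
  exact mul_le_mul_of_nonneg_left h8 (by positivity)

end Pool.Agent.TBirR
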