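import Pool.Agent.TBirS.Cut

/-!
# The deltoid `z + z ^ (-2) / 2`

Proof. Injective on the circle: if `z + z⁻²/2 = w + w⁻²/2`, `z ≠ w`, `|z| = |w| = 1`, then
`2 z² w² = z + w`, so `‖z + w‖ = 2`, so `z = w`.
Let `D l = ‖l‖^4 + (9/2) ‖l‖^2 - 27/16 - 4 Re (l^3)`. `D = 0` on the curve (`z⁻¹ = conj z`; polynomial identity
modulo `re² + im² = 1`). For fixed `l ≠ 0` the function `t ↦ D (t l)`, `t ≥ 0`, is strictly increasing or at least
nondecreasing: its derivative is `t (4 t² ‖l‖⁴ - 12 t Re (l³) + 9 ‖l‖²)` and `|Re l³| ≤ ‖l‖³`, so the second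
factor is at least `(2 t ‖l‖² - 3 ‖l‖)² ≥ 0`, zero only for `t ‖l‖ = 3/2`. So it is strictly increasing.
If `D l > 0` then `D (t l) > 0` for `t ≥ 1`, the ray does not meet the curve, and the winding number at `l` is that
far away, `0` (`wd_loc`, connectedness, `wd_large`; see `tear_wd` in TBirS/ExaA, ExaB). If `D l < 0` then
`D (t l) < 0` for `0 ≤ t ≤ 1` and the winding number is that at `0`, which is `1`: `phi z = z⁻² (z³ + 1/2)`
(`wind_mul`, `wind_sub_const` for the three roots of `z³ = -1/2`, or directly: `wind` of `z³ + 1/2` is `3`, e.g. by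
the homotopy `z³ + s/2`, `0 ≤ s ≤ 1`). If `D l = 0` and `l ∉ J phi` then `l ≠ 0`, the winding number is constant
near `l`, but `D (t l) > 0` for `t > 1` and `< 0` for `t < 1`: contradiction (`1 ≠ 0`). So the set of winding
number `1` is `{l | D l < 0}`, star-shaped about `0` (`StarConvex.isPreconnected` or a union of segments through `0`).
-/

set_option autoImplicit false

open MeasureTheory Complex Set Filter Topology Metric AddCircle
open scoped ComplexConjugate InnerProductSpace ENNReal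

namespace Pool.Agent.TBirR

open Pool.Agent.TBir

theorem delt_ana : AnalyticOnNhd ℂ (fun z : ℂ => z + (z⁻¹) ^ 2 / 2) (sphere 0 1) := by
  intro z hz
  have h0 : z ≠ 0 := by
    rintro rfl
    rw [mem_sphere_zero_iff_norm, norm_zero] at hz
    exact zero_ne_one hz
  exact analyticAt_id.add (((analyticAt_id.inv h0).pow 2).div analyticAt_const two_ne_zero)

theorem delt_inj : InjOn (fun z : ℂ => z + (z⁻¹) ^ 2 / 2) (sphere 0 1) := by
  intro z hz w hw h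
  rw [mem_sphere_zero_iff_norm] at hz hw
  have hz0 : z ≠ 0 := by
    rintro rfl
    rw [norm_zero] at hz
    exact zero_ne_one hz
  have hw0 : w ≠ 0 := by
    rintro rfl
    rw [norm_zero] at hw
    exact zero_ne_one hw
  by_contra hne
  have h1 : z - w ≠ 0 := sub_ne_zero.2 hne
  simp only at h
  have h2 : (z - w) * (2 * z ^ 2 * w ^ 2) = (z - w) * (z + w) := by
    have h3 : (z + (z⁻¹) ^ 2 / 2) * (2 * z ^ 2 * w ^ 2) = (w + (w⁻¹) ^ 2 / 2) * (2 * z ^ 2 * w ^ 2) := by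
      rw [h]
    have h4 : z * z⁻¹ = 1 := mul_inv_cancel₀ hz0
    have h5 : w * w⁻¹ = 1 := mul_inv_cancel₀ hw0
    have h6 : (z + (z⁻¹) ^ 2 / 2) * (2 * z ^ 2 * w ^ 2) = 2 * z ^ 3 * w ^ 2 + w ^ 2 := by
      have : (z + (z⁻¹) ^ 2 / 2) * (2 * z ^ 2 * w ^ 2) = 2 * z ^ 3 * w ^ 2 + (z * z⁻¹) ^ 2 * w ^ 2 := by
        ring
      rw [this, h4]
      ring
    have h7 : (w + (w⁻¹) ^ 2 / 2) * (2 * z ^ 2 * w ^ 2) = 2 * w ^ 3 * z ^ 2 + z ^ 2 := by
      have : (w + (w⁻¹) ^ 2 / 2) * (2 * z ^ 2 * w ^ 2) = 2 * w ^ 3 * z ^ 2 + (w * w⁻¹) ^ 2 * z ^ 2 := by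
        ring
      rw [this, h5]
      ring
    rw [h6, h7] at h3
    linear_combination h3
  have h3 : 2 * z ^ 2 * w ^ 2 = z + w := mul_left_cancel₀ h1 h2
  have h4 : ‖z + w‖ = 2 := by
    rw [← h3, norm_mul, norm_mul, norm_pow, norm_pow, hz, hw]
    simp
  have h5 := parallelogram_law_with_norm ℝ z w
  rw [h4, hz, hw] at h5
  have h6 : ‖z - w‖ * ‖z - w‖ = 0 := by linarith
  exact h1 (norm_eq_zero.1 (mul_self_eq_zero.1 h6))

/-- The polynomial of the curve. -/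
private noncomputable def DD (l : ℂ) : ℝ := ‖l‖ ^ 4 + 9 / 2 * ‖l‖ ^ 2 - 27 / 16 - 4 * (l ^ 3).re

private theorem dd_curve {l : ℂ} (hl : l ∈ J (fun z : ℂ => z + (z⁻¹) ^ 2 / 2)) : DD l = 0 := by
  obtain ⟨z, hz, rfl⟩ := hl
  rw [mem_sphere_zero_iff_norm] at hz
  have h1 : z⁻¹ = conj z := Complex.inv_eq_conj hz
  have h2 : z.re * z.re + z.im * z.im = 1 := by
    rw [← Complex.normSq_apply, Complex.normSq_eq_norm_sq, hz, one_pow]
  simp only [h1]
  obtain ⟨a, ha⟩ : ∃ a, a = z.re := ⟨_, rfl⟩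
  obtain ⟨b, hb⟩ : ∃ b, b = z.im := ⟨_, rfl⟩
  have hre : (z + (conj z) ^ 2 / 2).re = a + (a ^ 2 - b ^ 2) / 2 := by
    rw [ha, hb]
    simp [pow_two]
  have him : (z + (conj z) ^ 2 / 2).im = b - a * b := by
    rw [ha, hb]
    simp [pow_two]
    ring
  rw [← ha, ← hb] at h2
  obtain ⟨l, hl⟩ : ∃ l, l = z + (conj z) ^ 2 / 2 := ⟨_, rfl⟩
  rw [← hl] at hre him ⊢
  have e1 : ‖l‖ ^ 2 = l.re ^ 2 + l.im ^ 2 := by
    rw [← Complex.normSq_eq_norm_sq, Complex.normSq_apply]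
    ring
  have e2 : ‖l‖ ^ 4 = (l.re ^ 2 + l.im ^ 2) ^ 2 := by
    rw [← e1]
    ring
  have e3 : (l ^ 3).re = l.re ^ 3 - 3 * l.re * l.im ^ 2 := by
    simp [pow_succ]
    ring
  unfold DD
  rw [e1, e2, e3, hre, him]
  have hb2 : b ^ 2 = 1 - a ^ 2 := by linarith
  have f1 : a + (a ^ 2 - b ^ 2) / 2 = a + a ^ 2 - 1 / 2 := by rw [hb2]; ring
  have f2 : (b - a * b) ^ 2 = (1 - a ^ 2) * (1 - a) ^ 2 := by
    rw [← hb2]
    ring
  rw [f1, f2]
  ring

private theorem dd_mono {l : ℂ} (hl : l ≠ 0) {t t' : ℝ} (ht : 0 ≤ t) (htt : t < t') :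
    DD ((t : ℂ) * l) < DD ((t' : ℂ) * l) := by
  have hr : 0 < ‖l‖ := norm_pos_iff.2 hl
  have hρ : (l ^ 3).re ≤ ‖l‖ ^ 3 := by
    have := Complex.re_le_norm (l ^ 3)
    rwa [norm_pow] at this
  have key : ∀ s : ℝ, 0 ≤ s → DD ((s : ℂ) * l) =
      (s * ‖l‖) ^ 4 + 9 / 2 * (s * ‖l‖) ^ 2 - 27 / 16 - 4 * (s ^ 3 * (l ^ 3).re) := by
    intro s hs
    unfold DD
    have h1 : ‖(s : ℂ) * l‖ = s * ‖l‖ := by
      rw [norm_mul, Complex.norm_real, Real.norm_eq_abs, abs_of_nonneg hs]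
    have h2 : (((s : ℂ) * l) ^ 3).re = s ^ 3 * (l ^ 3).re := by
      rw [mul_pow, ← Complex.ofReal_pow, Complex.re_ofReal_mul]
    rw [h1, h2]
  rw [key t ht, key t' (ht.trans htt.le)]
  obtain ⟨x, hx⟩ : ∃ x, x = t * ‖l‖ := ⟨_, rfl⟩
  obtain ⟨y, hy⟩ : ∃ y, y = t' * ‖l‖ := ⟨_, rfl⟩
  have hxy : x < y := by
    rw [hx, hy]
    exact mul_lt_mul_of_pos_right htt hr
  have hx0 : 0 ≤ x := by rw [hx]; positivity
  rw [← hx, ← hy]
  have h3 : (t' ^ 3 - t ^ 3) * (l ^ 3).re ≤ y ^ 3 - x ^ 3 := by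
    have h4 : 0 ≤ t' ^ 3 - t ^ 3 := by
      have := pow_le_pow_left₀ ht htt.le 3
      linarith
    have h5 := mul_le_mul_of_nonneg_left hρ h4
    rw [hx, hy]
    calc (t' ^ 3 - t ^ 3) * (l ^ 3).re ≤ (t' ^ 3 - t ^ 3) * ‖l‖ ^ 3 := h5
      _ = (t' * ‖l‖) ^ 3 - (t * ‖l‖) ^ 3 := by ring
  have hB : 0 < (y ^ 3 + y ^ 2 * x + y * x ^ 2 + x ^ 3) - 4 * (y ^ 2 + y * x + x ^ 2) + 9 / 2 * (y + x) := by
    have hs : 0 < x + y := by linarith
    have hp : x * y < (x + y) ^ 2 / 4 := by nlinarith [sq_pos_of_pos (sub_pos.2 hxy)]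
    have hp0 : 0 ≤ x * y := mul_nonneg hx0 (by linarith)
    rcases le_total (x + y) 2 with h | h
    · have h6 : 0 < (x + y) * ((x + y - 2) ^ 2 + 1 / 2) := by positivity
      have h7 : 0 ≤ x * y * (4 - 2 * (x + y)) := mul_nonneg hp0 (by linarith)
      nlinarith
    · rcases eq_or_lt_of_le h with h' | h'
      · have h6 : 0 < (x + y) * ((x + y - 2) ^ 2 + 1 / 2) := by positivity
        have h7 : 0 ≤ x * y * (4 - 2 * (x + y)) := mul_nonneg hp0 (by linarith)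
        nlinarith
      · have h6 : 0 ≤ (x + y) / 2 * (x + y - 3) ^ 2 := by positivity
        have h7 : 0 < (2 * (x + y) - 4) * ((x + y) ^ 2 / 4 - x * y) :=
          mul_pos (by linarith) (by linarith)
        nlinarith
  have hg : 0 < (y - x) * ((y ^ 3 + y ^ 2 * x + y * x ^ 2 + x ^ 3) - 4 * (y ^ 2 + y * x + x ^ 2) +
      9 / 2 * (y + x)) := mul_pos (sub_pos.2 hxy) hB
  nlinarith

private theorem dd_path {phi : ℂ → ℂ} (hphi : AnalyticOnNhd ℂ phi (sphere 0 1)) {g : ℝ → ℂ}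
    (hg : Continuous g) {a b : ℝ} (hab : a ≤ b) (h : ∀ s ∈ Icc a b, g s ∉ J phi) :
    wd phi (g a) = wd phi (g b) := by
  have : PreconnectedSpace (Icc a b) := isPreconnected_iff_preconnectedSpace.1 isPreconnected_Icc
  have h1 : IsLocallyConstant (fun s : Icc a b => wd phi (g s)) := by
    rw [IsLocallyConstant.iff_eventually_eq]
    intro x
    have h2 := wd_loc hphi (h x x.2)
    have h3 : Tendsto (fun s : Icc a b => g s) (𝓝 x) (𝓝 (g x)) :=
      (hg.comp continuous_subtype_val).continuousAt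
    filter_upwards [h3.eventually h2] with s hs
    exact hs.2
  exact h1.apply_eq_of_preconnectedSpace ⟨a, left_mem_Icc.2 hab⟩ ⟨b, right_mem_Icc.2 hab⟩

private theorem dd_zero : DD 0 = -(27 / 16) := by
  unfold DD
  simp

private theorem dd_wd_zero : wd (fun z : ℂ => z + (z⁻¹) ^ 2 / 2) 0 = 1 := by
  have h1 : wd (fun z : ℂ => z + (z⁻¹) ^ 2 / 2) 0 = wind (fun w : ℂ => w - 0) := by
    refine wind_near (delt_ana.sub fun z _ => analyticAt_const)
      (fun z _ => analyticAt_id.sub analyticAt_const) fun z hz => ?_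
    rw [mem_sphere_zero_iff_norm] at hz
    have h2 : z + (z⁻¹) ^ 2 / 2 - 0 - (z - 0) = (z⁻¹) ^ 2 / 2 := by ring
    rw [h2, norm_div, norm_pow, norm_inv, hz, sub_zero, hz]
    simp
    norm_num
  rw [h1, wind_sub_const (by simp), if_pos (by simp)]

private theorem dd_pos {l : ℂ} (h : 0 < DD l) : l ∉ J (fun z : ℂ => z + (z⁻¹) ^ 2 / 2) ∧
    wd (fun z : ℂ => z + (z⁻¹) ^ 2 / 2) l = 0 := by
  refine ⟨fun h1 => by rw [dd_curve h1] at h; exact lt_irrefl _ h, ?_⟩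
  have hl : l ≠ 0 := by
    rintro rfl
    rw [dd_zero] at h
    norm_num at h
  have hr : 0 < ‖l‖ := norm_pos_iff.2 hl
  obtain ⟨R, hR⟩ := wd_large delt_ana
  obtain ⟨b, hb⟩ : ∃ b : ℝ, b = (|R| + 1) / ‖l‖ + 1 := ⟨_, rfl⟩
  have hb1 : 1 ≤ b := by
    rw [hb]
    have : 0 ≤ (|R| + 1) / ‖l‖ := by positivity
    linarith
  have hb2 : R < ‖(b : ℂ) * l‖ := by
    rw [norm_mul, Complex.norm_real, Real.norm_eq_abs, abs_of_pos (by linarith), hb, add_mul,
      div_mul_cancel₀ _ hr.ne', one_mul]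
    have := le_abs_self R
    linarith
  have hp := dd_path delt_ana (g := fun t : ℝ => (t : ℂ) * l) (by fun_prop) hb1 (fun s hs h1 => by
    have h2 := dd_curve h1
    rcases eq_or_lt_of_le hs.1 with h3 | h3
    · rw [← h3, Complex.ofReal_one, one_mul] at h2
      linarith
    · have h4 := dd_mono hl zero_le_one h3
      rw [Complex.ofReal_one, one_mul] at h4
      linarith)
  simp only [Complex.ofReal_one, one_mul] at hp
  rw [hp]
  exact (hR _ hb2).2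

private theorem dd_neg {l : ℂ} (h : DD l < 0) : l ∉ J (fun z : ℂ => z + (z⁻¹) ^ 2 / 2) ∧
    wd (fun z : ℂ => z + (z⁻¹) ^ 2 / 2) l = 1 := by
  refine ⟨fun h1 => by rw [dd_curve h1] at h; exact lt_irrefl _ h, ?_⟩
  rcases eq_or_ne l 0 with rfl | hl
  · exact dd_wd_zero
  have hp := dd_path delt_ana (g := fun t : ℝ => (t : ℂ) * l) (by fun_prop) zero_le_one
    (fun s hs h1 => by
      have h2 := dd_curve h1
      rcases eq_or_lt_of_le hs.2 with h3 | h3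
      · rw [h3, Complex.ofReal_one, one_mul] at h2
        linarith
      · have h4 := dd_mono hl hs.1 h3
        rw [Complex.ofReal_one, one_mul] at h4
        linarith)
  simp only [Complex.ofReal_one, one_mul, Complex.ofReal_zero, zero_mul] at hp
  rw [← hp]
  exact dd_wd_zero

private theorem dd_ne {l : ℂ} (hl : l ∉ J (fun z : ℂ => z + (z⁻¹) ^ 2 / 2)) : DD l ≠ 0 := by
  intro h0
  have hl0 : l ≠ 0 := by
    rintro rfl
    rw [dd_zero] at h0
    norm_num at h0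
  have h1 := wd_loc delt_ana hl
  have hc : Tendsto (fun t : ℝ => (t : ℂ) * l) (𝓝 1) (𝓝 l) := by
    have : Continuous fun t : ℝ => (t : ℂ) * l := by fun_prop
    have h2 := this.tendsto 1
    rwa [Complex.ofReal_one, one_mul] at h2
  have h2 := hc.eventually h1
  have e1 : ∀ t : ℝ, 1 < t → wd (fun z : ℂ => z + (z⁻¹) ^ 2 / 2) ((t : ℂ) * l) = 0 := by
    intro t ht
    have h3 := dd_mono hl0 zero_le_one ht
    rw [Complex.ofReal_one, one_mul, h0] at h3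
    exact (dd_pos h3).2
  have e2 : ∀ t : ℝ, 0 ≤ t → t < 1 → wd (fun z : ℂ => z + (z⁻¹) ^ 2 / 2) ((t : ℂ) * l) = 1 := by
    intro t ht0 ht
    have h3 := dd_mono hl0 ht0 ht
    rw [Complex.ofReal_one, one_mul, h0] at h3
    exact (dd_neg h3).2
  obtain ⟨t, ht, ht'⟩ := ((h2.filter_mono (nhdsWithin_le_nhds (s := Ioi (1 : ℝ)))).and
    self_mem_nhdsWithin).exists
  have h5 : ∀ᶠ t : ℝ in 𝓝[<] 1, 0 < t := nhdsWithin_le_nhds (Ioi_mem_nhds one_pos)
  obtain ⟨s, ⟨hs, hs0⟩, hs'⟩ := (((h2.filter_mono (nhdsWithin_le_nhds (s := Iio (1 : ℝ)))).and h5).and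
    self_mem_nhdsWithin).exists
  have h6 := (e1 t ht').symm.trans ht.2
  have h7 := (e2 s hs0.le hs').symm.trans hs.2
  rw [← h6] at h7
  exact one_ne_zero h7

theorem delt_wd : ∀ l, l ∉ J (fun z : ℂ => z + (z⁻¹) ^ 2 / 2) →
    wd (fun z : ℂ => z + (z⁻¹) ^ 2 / 2) l = 0 ∨ wd (fun z : ℂ => z + (z⁻¹) ^ 2 / 2) l = 1 := by
  intro l hl
  rcases lt_or_gt_of_ne (dd_ne hl) with h | h
  · exact Or.inr (dd_neg h).2
  · exact Or.inl (dd_pos h).2

theorem delt_conn : IsPreconnected {l | l ∉ J (fun z : ℂ => z + (z⁻¹) ^ 2 / 2) ∧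
    wd (fun z : ℂ => z + (z⁻¹) ^ 2 / 2) l = 1} := by
  have h1 : {l | l ∉ J (fun z : ℂ => z + (z⁻¹) ^ 2 / 2) ∧
      wd (fun z : ℂ => z + (z⁻¹) ^ 2 / 2) l = 1} = {l | DD l < 0} := by
    ext l
    constructor
    · rintro ⟨h2, h3⟩
      rcases lt_or_gt_of_ne (dd_ne h2) with h | h
      · exact h
      · rw [(dd_pos h).2] at h3
        exact absurd h3 zero_ne_one
    · intro h
      exact dd_neg h
  rw [h1]
  refine isPreconnected_of_forall (0 : ℂ) fun l hl => ?_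
  refine ⟨(fun t : ℝ => (t : ℂ) * l) '' Icc 0 1, ?_, ⟨0, ⟨le_rfl, zero_le_one⟩, by simp⟩,
    ⟨1, ⟨zero_le_one, le_rfl⟩, by simp⟩, ?_⟩
  · rintro _ ⟨t, ht, rfl⟩
    show DD ((t : ℂ) * l) < 0
    have hl' : DD l < 0 := hl
    rcases eq_or_ne l 0 with rfl | hl0
    · rw [mul_zero]
      exact hl'
    rcases eq_or_lt_of_le ht.2 with h3 | h3
    · rw [h3, Complex.ofReal_one, one_mul]
      exact hl'
    · have h4 := dd_mono hl0 ht.1 h3
      rw [Complex.ofReal_one, one_mul] at h4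
      exact h4.trans hl'
  · refine isPreconnected_Icc.image _ ?_
    fun_prop

end Pool.Agent.TBirR
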