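import Pool.Agent.TBirG.Main

/-!
# Factorisation of `phi - l` near the circle, uniformly for `l` near `q`

No assumption on the zeros of `phi - q` on the circle (any number, any multiplicity).

Paper proof. `NC phi` (TBirG/Cst): `phi` is not constant near any point of the circle. There is `d < 1` such
that `phi` is analytic in a neighbourhood of the closed annulus `B = {1 - d ≤ |w| ≤ 1 + d}`
(`exists_ann_subset`) and `phi w = q`, `w ∈ B` imply `|w| = 1` (`evt_ne` of TBirG/Cst: for `r ≠ 1` near `1`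
`phi` does not take the value `q` on `|w| = r`; shrink `d`). Let `B' = {w ∈ B | d/2 ≤ | |w| - 1 |}` (compact),
`|phi w - q| ≥ 2 c0 > 0` on `B'`, `rho = c0`. For `l ∈ ball q rho`: `|phi w - l| ≥ c0` on `B'`, so the zeros of
`phi - l` in `B` are in `| |w| - 1 | < d/2`.

The winding numbers of `phi - l` on `|w| = 1 - d` and `|w| = 1 + d` do not depend on `l ∈ ball q rho`
(`wind_near`: `|(phi w - l) - (phi w - q)| < |phi w - q|`); call them `x` and `x + k`.

For fixed `l`, let `f = phi - l`. It has finitely many zeros with multiplicity in `B`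
(`MeromorphicOn.extract_zeros_poles` of Mathlib.Analysis.Meromorphic.FactorizedRational, or divide by the
zeros one by one: `f w = dslope f a w * (w - a)` if `f a = 0`; the number of divisions is at most the sum of
the orders of the finitely many zeros). So `f w = psi w * ∏ i : Fin k', (w - z i)` with `psi` analytic near `B`
without zero on `B`, `z i ∈ B`, `f (z i) = 0`. The winding numbers of `psi (r ·)` are the same for all
`1 - d ≤ r ≤ 1 + d` (locally constant in `r`: `wind_dil` of TBirG/Qs applied to `psi (r0 ·)`, the interval is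
connected). With `wind_lin` (TBirG/Qs) on the circle of radius `1 - d`: `x = wind psi`; on `1 + d`:
`x + k = wind psi + k'`, so `k' = k` (in particular `k` is a natural number).

Bounds: on the two boundary circles `c0 ≤ |phi w - l| ≤ M1`, and `(d/2)^k ≤ |∏ (w - z i)| ≤ 4^k`. So
`c0 / 4^k ≤ |psi| ≤ M1 (2/d)^k` on the boundary of `B` and by the maximum principle for `psi` and `1/psi`
(`norm_le_ann` or `Complex.norm_le_of_forall_mem_frontier_norm_le`) on `B`.
If `l = q` then `|z i| = 1` by the choice of `d`.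
-/

set_option autoImplicit false

open MeasureTheory Complex Set Filter Topology Metric AddCircle
open scoped ComplexConjugate InnerProductSpace ENNReal

namespace Pool.Agent.TBirR

open Pool.Agent.TBir Pool.Agent.TBirG

/-- The annulus is connected. -/
private theorem fz_conn {D : ℝ} (hD : 0 < D) (hD1 : D < 1) : IsPreconnected (ann D) := by
  have h : ann D = Complex.exp '' {z : ℂ | Real.log (1 - D) < z.re ∧ z.re < Real.log (1 + D)} := by
    ext w
    constructor
    · rintro ⟨h1, h2⟩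
      have hw : w ≠ 0 := by
        rintro rfl
        rw [norm_zero] at h1
        linarith
      refine ⟨Complex.log w, ⟨?_, ?_⟩, Complex.exp_log hw⟩
      · rw [Complex.log_re]
        exact Real.log_lt_log (by linarith) h1
      · rw [Complex.log_re]
        exact Real.log_lt_log (norm_pos_iff.2 hw) h2
    · rintro ⟨z, ⟨h1, h2⟩, rfl⟩
      constructor
      · rw [Complex.norm_exp]
        exact (Real.log_lt_iff_lt_exp (by linarith)).1 h1
      · rw [Complex.norm_exp]
        exact (Real.lt_log_iff_exp_lt (by linarith)).1 h2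
  rw [h]
  refine IsPreconnected.image (Convex.isPreconnected ?_) _ Complex.continuous_exp.continuousOn
  exact (convex_halfSpace_re_gt _).inter (convex_halfSpace_re_lt _)

private theorem fz_ord {f : ℂ → ℂ} {a : ℂ} (hg : AnalyticAt ℂ (dslope f a) a)
    (hfg : ∀ w, f w = (w - a) * dslope f a w) {n : ℕ}
    (ho : analyticOrderAt f a = ((n + 1 : ℕ) : ℕ∞)) : analyticOrderAt (dslope f a) a = n := by
  have h1 : AnalyticAt ℂ (fun w : ℂ => w - a) a := analyticAt_id.sub analyticAt_const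
  have h2 : analyticOrderAt (fun w : ℂ => w - a) a = ((1 : ℕ) : ℕ∞) := by
    rw [h1.analyticOrderAt_eq_natCast]
    exact ⟨fun _ => 1, analyticAt_const, one_ne_zero, Eventually.of_forall fun w => by simp⟩
  have h3 : f = (fun w : ℂ => w - a) * dslope f a := funext fun w => hfg w
  have h4 : analyticOrderAt f a = ((1 : ℕ) : ℕ∞) + analyticOrderAt (dslope f a) a := by
    conv_lhs => rw [h3]
    rw [analyticOrderAt_mul h1 hg, h2]
  rw [h4] at ho
  have h5 : analyticOrderAt (dslope f a) a ≠ ⊤ := by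
    intro h
    rw [h] at ho
    simp at ho
    exact absurd ho.symm (ENat.natCast_ne_top _)
  obtain ⟨j, hj⟩ := ENat.ne_top_iff_exists.1 h5
  rw [← hj] at ho ⊢
  have h6 : 1 + j = n + 1 := by exact_mod_cast ho
  have h7 : j = n := by omega
  rw [h7]

private theorem fz_fac {D : ℝ} {B : Set ℂ} (hB : B ⊆ ann D) (Z : Finset ℂ) :
    ∀ f : ℂ → ℂ, DifferentiableOn ℂ f (ann D) → (∀ a ∈ ann D, ¬ ∀ᶠ w in 𝓝 a, f w = 0) →
      (∀ w ∈ B, f w = 0 → w ∈ Z) →
      ∃ (k : ℕ) (z : Fin k → ℂ) (psi : ℂ → ℂ), DifferentiableOn ℂ psi (ann D) ∧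
        (∀ w ∈ B, psi w ≠ 0) ∧ (∀ i, z i ∈ B ∧ f (z i) = 0) ∧
        ∀ w ∈ ann D, f w = psi w * ∏ i, (w - z i) := by
  induction Z using Finset.induction_on with
  | empty =>
    intro f hf _ hZ
    refine ⟨0, Fin.elim0, f, hf, fun w hw h => ?_, fun i => i.elim0, fun w _ => by simp⟩
    exact absurd (hZ w hw h) (Finset.notMem_empty w)
  | insert a Z ha ih =>
    have main : ∀ n : ℕ, ∀ f : ℂ → ℂ, DifferentiableOn ℂ f (ann D) →
        (∀ b ∈ ann D, ¬ ∀ᶠ w in 𝓝 b, f w = 0) → (∀ w ∈ B, f w = 0 → w ∈ insert a Z) →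
        analyticOrderAt f a = (n : ℕ∞) →
        ∃ (k : ℕ) (z : Fin k → ℂ) (psi : ℂ → ℂ), DifferentiableOn ℂ psi (ann D) ∧
        (∀ w ∈ B, psi w ≠ 0) ∧ (∀ i, z i ∈ B ∧ f (z i) = 0) ∧
        ∀ w ∈ ann D, f w = psi w * ∏ i, (w - z i) := by
      intro n
      induction n with
      | zero =>
        intro f hf hne hZ ho
        refine ih f hf hne fun w hw h => ?_
        rcases Finset.mem_insert.1 (hZ w hw h) with h1 | h1
        · exfalso
          subst h1
          have h2 := (hf.analyticOnNhd (isOpen_ann D) w (hB hw)).analyticOrderAt_eq_zero.1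
            (by simpa using ho)
          exact h2 h
        · exact h1
      | succ n ihn =>
        intro f hf hne hZ ho
        by_cases haB : a ∈ B
        · have hfa : f a = 0 := apply_eq_zero_of_analyticOrderAt_ne_zero (𝕜 := ℂ)
            (by rw [ho]; exact_mod_cast Nat.succ_ne_zero n)
          have hg := dslope_diff hf (hB haB)
          have hfg : ∀ w, f w = (w - a) * dslope f a w := by
            intro w
            have := sub_smul_dslope f a w
            rw [smul_eq_mul, hfa, sub_zero] at this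
            exact this.symm
          obtain ⟨k, z, psi, h1, h2, h3, h4⟩ := ihn (dslope f a) hg
            (fun b hb h => hne b hb (h.mono fun w hw => by rw [hfg, hw, mul_zero]))
            (fun w hw h => hZ w hw (by rw [hfg, h, mul_zero]))
            (fz_ord (hg.analyticOnNhd (isOpen_ann D) a (hB haB)) hfg ho)
          refine ⟨k + 1, Fin.cons a z, psi, h1, h2, ?_, ?_⟩
          · intro i
            refine Fin.cases ?_ (fun j => ?_) i
            · exact ⟨haB, hfa⟩
            · rw [Fin.cons_succ]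
              exact ⟨(h3 j).1, by rw [hfg, (h3 j).2, mul_zero]⟩
          · intro w hw
            rw [hfg, h4 w hw, Fin.prod_univ_succ]
            simp only [Fin.cons_zero, Fin.cons_succ]
            ring
        · refine ih f hf hne fun w hw h => ?_
          rcases Finset.mem_insert.1 (hZ w hw h) with h1 | h1
          · exact absurd (h1 ▸ hw) haB
          · exact h1
    intro f hf hne hZ
    by_cases haD : a ∈ ann D
    · have h1 : analyticOrderAt f a ≠ ⊤ := by
        rw [Ne, analyticOrderAt_eq_top]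
        exact hne a haD
      obtain ⟨n, hn⟩ := ENat.ne_top_iff_exists.1 h1
      exact main n f hf hne hZ hn.symm
    · refine ih f hf hne fun w hw h => ?_
      rcases Finset.mem_insert.1 (hZ w hw h) with h1 | h1
      · exact absurd (hB (h1 ▸ hw)) haD
      · exact h1

private theorem fz_wprod {r : ℝ} (hr : 0 < r) {k : ℕ} (z : Fin k → ℂ) (hz : ∀ i, ‖z i‖ ≠ r)
    {g : ℂ → ℂ} (hg : AnalyticOnNhd ℂ g (sphere 0 1)) (hg0 : ∀ w ∈ sphere (0 : ℂ) 1, g w ≠ 0) :
    wind (fun w => g w * ∏ i, ((r : ℂ) * w - z i)) =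
      wind g + ∑ i, (if ‖z i‖ < r then (1 : ℂ) else 0) := by
  induction k generalizing g with
  | zero => simp
  | succ k ih =>
    have ha : AnalyticOnNhd ℂ (fun w : ℂ => (r : ℂ) * w - z 0) (sphere 0 1) := fun w _ =>
      (analyticAt_const.mul analyticAt_id).sub analyticAt_const
    have ha0 : ∀ w ∈ sphere (0 : ℂ) 1, (r : ℂ) * w - z 0 ≠ 0 := by
      intro w hw h
      rw [mem_sphere_zero_iff_norm] at hw
      apply hz 0
      rw [← sub_eq_zero.1 h, norm_mul, hw, mul_one, Complex.norm_real, Real.norm_eq_abs,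
        abs_of_pos hr]
    have h1 := ih (fun i => z i.succ) (fun i => hz i.succ)
      (g := fun w => g w * ((r : ℂ) * w - z 0)) (hg.mul ha)
      (fun w hw => mul_ne_zero (hg0 w hw) (ha0 w hw))
    have h2 : (fun w => g w * ∏ i, ((r : ℂ) * w - z i)) =
        fun w => g w * ((r : ℂ) * w - z 0) * ∏ i : Fin k, ((r : ℂ) * w - z i.succ) := by
      funext w
      rw [Fin.prod_univ_succ, mul_assoc]
    rw [h2, h1, wind_mul hg ha hg0 ha0, wind_lin hr (hz 0), Fin.sum_univ_succ, add_assoc]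

private theorem fz_rad {D e : ℝ} (hD1 : D < 1) (he0 : 0 < e) (he : e < D) {psi : ℂ → ℂ}
    (hpsi : DifferentiableOn ℂ psi (ann D))
    (h0 : ∀ w : ℂ, 1 - e ≤ ‖w‖ → ‖w‖ ≤ 1 + e → psi w ≠ 0) :
    ∀ r ∈ Icc (1 - e) (1 + e), wind (fun w => psi ((r : ℂ) * w)) =
      wind (fun w => psi (((1 - e : ℝ) : ℂ) * w)) := by
  have hloc : ∀ r ∈ Icc (1 - e) (1 + e), ∀ᶠ s : ℝ in 𝓝 r,
      wind (fun w => psi ((s : ℂ) * w)) = wind (fun w => psi ((r : ℂ) * w)) := by
    intro r hr
    have hr0 : 0 < r := by linarith [hr.1]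
    have hn : ∀ w ∈ sphere (0 : ℂ) 1, ‖(r : ℂ) * w‖ = r := by
      intro w hw
      rw [mem_sphere_zero_iff_norm] at hw
      rw [norm_mul, hw, mul_one, Complex.norm_real, Real.norm_eq_abs, abs_of_pos hr0]
    have hg : AnalyticOnNhd ℂ (fun w => psi ((r : ℂ) * w)) (sphere 0 1) := by
      intro w hw
      refine AnalyticAt.fun_comp (hpsi.analyticOnNhd (isOpen_ann D) _ ?_)
        (analyticAt_const.mul analyticAt_id)
      have h3 := hn w hw
      constructor
      · change 1 - D < ‖(r : ℂ) * w‖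
        rw [h3]; linarith [hr.1]
      · change ‖(r : ℂ) * w‖ < 1 + D
        rw [h3]; linarith [hr.2]
    have hg0 : ∀ w ∈ sphere (0 : ℂ) 1, psi ((r : ℂ) * w) ≠ 0 := fun w hw =>
      h0 _ (by rw [hn w hw]; exact hr.1) (by rw [hn w hw]; exact hr.2)
    have h1 := wind_dil hg hg0
    have h2 : Tendsto (fun s : ℝ => s / r) (𝓝 r) (𝓝 1) := by
      have : Tendsto (fun s : ℝ => s / r) (𝓝 r) (𝓝 (r / r)) := tendsto_id.div_const r
      rwa [div_self hr0.ne'] at this
    filter_upwards [h2.eventually h1] with s hs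
    rw [← hs.2.2]
    congr 1
    funext w
    have hrc : (r : ℂ) ≠ 0 := by exact_mod_cast hr0.ne'
    congr 1
    push_cast
    field_simp
  have hc : ContinuousOn (fun r : ℝ => wind (fun w => psi ((r : ℂ) * w))) (Icc (1 - e) (1 + e)) := by
    intro r hr
    have h1 : (fun s : ℝ => wind (fun w => psi ((s : ℂ) * w))) =ᶠ[𝓝 r]
        fun _ => wind (fun w => psi ((r : ℂ) * w)) := hloc r hr
    exact (continuousAt_const.congr h1.symm).continuousWithinAt
  refine constant_of_has_deriv_right_zero hc fun r hr => ?_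
  have h1 : (fun s : ℝ => wind (fun w => psi ((s : ℂ) * w))) =ᶠ[𝓝 r]
      fun _ => wind (fun w => psi ((r : ℂ) * w)) := hloc r (Ico_subset_Icc_self hr)
  exact ((hasDerivAt_const r _).congr_of_eventuallyEq h1).hasDerivWithinAt

theorem exists_fz {phi : ℂ → ℂ} (hphi : AnalyticOnNhd ℂ phi (sphere 0 1)) (hNC : NC phi) (q : ℂ) :
    ∃ (rho d m M : ℝ) (x : ℤ) (k : ℕ), 0 < rho ∧ 0 < d ∧ d < 1 ∧ 0 < m ∧
      ∀ l ∈ ball q rho, ∃ (z : Fin k → ℂ) (psi : ℂ → ℂ), DifferentiableOn ℂ psi (ann d) ∧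
        (∀ w ∈ ann d, m ≤ ‖psi w‖ ∧ ‖psi w‖ ≤ M) ∧ wind psi = x ∧
        (∀ i, z i ∈ ann d ∧ phi (z i) = l) ∧ (l = q → ∀ i, ‖z i‖ = 1) ∧
        ∀ w ∈ ann d, phi w - l = psi w * ∏ i, (w - z i) := by
  obtain ⟨d1, hd1, hd11, hsub1⟩ := exists_ann_subset (isOpen_analyticAt ℂ phi) hphi
  obtain ⟨δ, hδ, hδ'⟩ := Metric.eventually_nhds_iff_ball.1
    (eventually_nhdsWithin_iff.1 (evt_ne hNC q))
  obtain ⟨D, hD0, hD1, hDd, hDδ⟩ : ∃ D : ℝ, 0 < D ∧ D < 1 ∧ D ≤ d1 ∧ D < δ :=
    ⟨min d1 (δ / 2), lt_min hd1 (half_pos hδ), lt_of_le_of_lt (min_le_left _ _) hd11,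
      min_le_left _ _, lt_of_le_of_lt (min_le_right _ _) (half_lt_self hδ)⟩
  have hana : DifferentiableOn ℂ phi (ann D) := fun w hw =>
    (show AnalyticAt ℂ phi w from hsub1 ⟨by linarith [hw.1], by linarith [hw.2]⟩).differentiableAt.differentiableWithinAt
  have hq : ∀ w ∈ ann D, phi w = q → ‖w‖ = 1 := by
    intro w hw h
    by_contra hne
    have hw0 : (0 : ℝ) < ‖w‖ := by linarith [hw.1]
    have hwc : ((‖w‖ : ℝ) : ℂ) ≠ 0 := by exact_mod_cast hw0.ne'
    refine hδ' ‖w‖ ?_ hne (w / ‖w‖) ?_ ?_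
    · rw [mem_ball, Real.dist_eq, abs_lt]
      constructor <;> linarith [hw.1, hw.2]
    · rw [mem_sphere_zero_iff_norm, norm_div, Complex.norm_real, norm_norm, div_self hw0.ne']
    · rw [mul_div_cancel₀ _ hwc]
      exact h
  -- compact sets
  obtain ⟨B, hBdef⟩ : ∃ B : Set ℂ, B = {w | |‖w‖ - 1| ≤ 3 * D / 4} := ⟨_, rfl⟩
  obtain ⟨K, hKdef⟩ : ∃ K : Set ℂ, K = {w | D / 4 ≤ |‖w‖ - 1|} ∩ B := ⟨_, rfl⟩
  have hBmem : ∀ w, w ∈ B ↔ |‖w‖ - 1| ≤ 3 * D / 4 := fun w => by rw [hBdef]; rfl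
  have hKmem : ∀ w, w ∈ K ↔ D / 4 ≤ |‖w‖ - 1| ∧ |‖w‖ - 1| ≤ 3 * D / 4 := fun w => by
    rw [hKdef, ← hBmem w]; rfl
  have hBD : B ⊆ ann D := by
    intro w hw
    rw [hBmem, abs_le] at hw
    exact ⟨by linarith [hw.1], by linarith [hw.2]⟩
  have hcn : Continuous fun w : ℂ => |‖w‖ - 1| := by fun_prop
  have hBc : IsCompact B := by
    refine Metric.isCompact_of_isClosed_isBounded ?_ ?_
    · rw [hBdef]; exact isClosed_le hcn continuous_const
    · refine (Metric.isBounded_closedBall (x := (0 : ℂ)) (r := 2)).subset fun w hw => ?_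
      rw [hBmem, abs_le] at hw
      rw [mem_closedBall, dist_zero_right]
      linarith [hw.2]
  have hKc : IsCompact K := by
    rw [hKdef]
    exact hBc.inter_left (isClosed_le continuous_const hcn)
  have hKB : K ⊆ B := by rw [hKdef]; exact inter_subset_right
  have hcB : ContinuousOn phi B := hana.continuousOn.mono hBD
  obtain ⟨c1, hc1, hc1'⟩ := hKc.exists_forall_le' (f := fun w => ‖phi w - q‖) (a := 0)
    ((hcB.mono hKB).sub continuousOn_const).norm (fun w hw => by
      rw [norm_pos_iff, sub_ne_zero]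
      intro h
      have h1 := hq w (hBD (hKB hw)) h
      rw [hKmem, h1, sub_self, abs_zero] at hw
      linarith [hw.1])
  obtain ⟨M0, hM0⟩ := hBc.exists_bound_of_continuousOn hcB
  -- radii
  obtain ⟨ra, hra⟩ : ∃ ra : ℝ, ra = 1 - D / 2 := ⟨_, rfl⟩
  obtain ⟨rb, hrb⟩ : ∃ rb : ℝ, rb = 1 + D / 2 := ⟨_, rfl⟩
  have hra0 : 0 < ra := by rw [hra]; linarith
  have hrb0 : 0 < rb := by rw [hrb]; linarith
  have hnr : ∀ r : ℝ, 0 < r → ∀ w ∈ sphere (0 : ℂ) 1, ‖(r : ℂ) * w‖ = r := by
    intro r hr w hw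
    rw [mem_sphere_zero_iff_norm] at hw
    rw [norm_mul, hw, mul_one, Complex.norm_real, Real.norm_eq_abs, abs_of_pos hr]
  have hKr : ∀ r : ℝ, r = ra ∨ r = rb → ∀ w ∈ sphere (0 : ℂ) 1, (r : ℂ) * w ∈ K := by
    intro r hr w hw
    have hr0 : 0 < r := by rcases hr with h | h <;> rw [h] <;> assumption
    rw [hKmem, hnr r hr0 w hw]
    rcases hr with h | h
    · rw [h, hra, show 1 - D / 2 - 1 = -(D / 2) by ring, abs_neg, abs_of_pos (by linarith)]
      constructor <;> linarith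
    · rw [h, hrb, show 1 + D / 2 - 1 = D / 2 by ring, abs_of_pos (by linarith)]
      constructor <;> linarith
  have hanr : ∀ (l : ℂ) (r : ℝ), r = ra ∨ r = rb →
      AnalyticOnNhd ℂ (fun w => phi ((r : ℂ) * w) - l) (sphere 0 1) := by
    intro l r hr w hw
    exact (AnalyticAt.fun_comp (hana.analyticOnNhd (isOpen_ann D) _ (hBD (hKB (hKr r hr w hw))))
      (analyticAt_const.mul analyticAt_id)).sub analyticAt_const
  have hner : ∀ r : ℝ, r = ra ∨ r = rb → ∀ w ∈ sphere (0 : ℂ) 1, phi ((r : ℂ) * w) - q ≠ 0 := by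
    intro r hr w hw
    exact norm_pos_iff.1 (lt_of_lt_of_le hc1 (hc1' _ (hKr r hr w hw)))
  obtain ⟨n1, hn1⟩ := wind_int (hanr q ra (Or.inl rfl)) (hner ra (Or.inl rfl))
  obtain ⟨n2, hn2⟩ := wind_int (hanr q rb (Or.inr rfl)) (hner rb (Or.inr rfl))
  obtain ⟨c0, hc0, hc01⟩ : ∃ c0 : ℝ, 0 < c0 ∧ 2 * c0 = c1 := ⟨c1 / 2, half_pos hc1, by ring⟩
  obtain ⟨M1, hM1⟩ : ∃ M1 : ℝ, M1 = M0 + ‖q‖ + c0 := ⟨_, rfl⟩
  refine ⟨c0, D / 2, c0 / 4 ^ (n2 - n1).toNat, M1 / (D / 4) ^ (n2 - n1).toNat, n1,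
    (n2 - n1).toNat, hc0, half_pos hD0, by linarith, by positivity, ?_⟩
  intro l hl
  rw [mem_ball, dist_eq_norm] at hl
  have hfd : DifferentiableOn ℂ (fun w => phi w - l) (ann D) := hana.sub_const l
  have hlow : ∀ w ∈ K, c0 ≤ ‖phi w - l‖ := by
    intro w hw
    have h1 : ‖phi w - q‖ ≤ ‖phi w - l‖ + ‖l - q‖ := by
      have := norm_add_le (phi w - l) (l - q)
      rwa [sub_add_sub_cancel] at this
    have h2 := hc1' w hw
    beta_reduce at h2
    linarith
  have hupp : ∀ w ∈ B, ‖phi w - l‖ ≤ M1 := by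
    intro w hw
    have h1 := hM0 w hw
    have h2 : ‖l‖ ≤ ‖l - q‖ + ‖q‖ := by
      have := norm_add_le (l - q) q
      rwa [sub_add_cancel] at this
    have h3 := norm_sub_le (phi w) l
    rw [hM1]
    linarith
  have hne : ∀ a ∈ ann D, ¬ ∀ᶠ w in 𝓝 a, (fun w => phi w - l) w = 0 := by
    intro a ha h
    have h1 := (hfd.analyticOnNhd (isOpen_ann D)).eqOn_zero_of_preconnected_of_eventuallyEq_zero
      (fz_conn hD0 hD1) ha h
    have h2 : (rb : ℂ) * 1 ∈ K := hKr rb (Or.inr rfl) 1 (by simp)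
    have h3 := h1 (hBD (hKB h2))
    have h4 := hlow _ h2
    simp only [Pi.zero_apply] at h3
    rw [h3, norm_zero] at h4
    linarith
  have hfin : (B ∩ {w | phi w - l = 0}).Finite := by
    refine hBc.induction_on (p := fun s => (s ∩ {w | phi w - l = 0}).Finite) (by simp) ?_ ?_ ?_
    · intro s t hst ht
      exact ht.subset (inter_subset_inter_left _ hst)
    · intro s t hs ht
      rw [union_inter_distrib_right]
      exact hs.union ht
    · intro a ha
      have h1 := (hfd.analyticOnNhd (isOpen_ann D) a (hBD ha)).eventually_eq_zero_or_eventually_ne_zero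
      rcases h1 with h1 | h1
      · exact absurd h1 (hne a (hBD ha))
      · refine ⟨{w | w ∈ ({a}ᶜ : Set ℂ) → phi w - l ≠ 0}, mem_nhdsWithin_of_mem_nhds
          (eventually_nhdsWithin_iff.1 h1), (finite_singleton a).subset ?_⟩
        rintro w ⟨hw1, hw2⟩
        by_contra hw3
        exact hw1 hw3 hw2
  obtain ⟨k, z, psi, hp1, hp2, hp3, hp4⟩ := fz_fac hBD hfin.toFinset (fun w => phi w - l) hfd hne
    (fun w hw h => by
      rw [Set.Finite.mem_toFinset]
      exact ⟨hw, h⟩)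
  have hz1 : ∀ i, |‖z i‖ - 1| < D / 4 := by
    intro i
    by_contra h
    push Not at h
    have h1 : z i ∈ K := (hKmem _).2 ⟨h, (hBmem _).1 (hp3 i).1⟩
    have h2 := hlow _ h1
    have h3 := (hp3 i).2
    beta_reduce at h3
    rw [h3, norm_zero] at h2
    linarith
  have hB' : ∀ w : ℂ, 1 - D / 2 ≤ ‖w‖ → ‖w‖ ≤ 1 + D / 2 → w ∈ B := by
    intro w h1 h2
    rw [hBmem, abs_le]
    constructor <;> linarith
  have hrad := fz_rad hD1 (half_pos hD0) (half_lt_self hD0) hp1
    (fun w h1 h2 => hp2 w (hB' w h1 h2))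
  have hanp : ∀ r : ℝ, r = ra ∨ r = rb →
      AnalyticOnNhd ℂ (fun w => psi ((r : ℂ) * w)) (sphere 0 1) := by
    intro r hr w hw
    exact AnalyticAt.fun_comp (hp1.analyticOnNhd (isOpen_ann D) _ (hBD (hKB (hKr r hr w hw))))
      (analyticAt_const.mul analyticAt_id)
  have hw : ∀ r : ℝ, r = ra ∨ r = rb → 0 < r → (∀ i, ‖z i‖ ≠ r) →
      wind (fun w => phi ((r : ℂ) * w) - q) = wind (fun w => psi ((r : ℂ) * w)) +
        ∑ i, (if ‖z i‖ < r then (1 : ℂ) else 0) := by
    intro r hr hr0 hzr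
    rw [← fz_wprod hr0 z hzr (hanp r hr) (fun w hw => hp2 _ (hKB (hKr r hr w hw)))]
    have h1 : wind (fun w => phi ((r : ℂ) * w) - l) = wind (fun w => phi ((r : ℂ) * w) - q) := by
      refine wind_near (hanr l r hr) (hanr q r hr) fun w hw => ?_
      have h2 := hc1' _ (hKr r hr w hw)
      beta_reduce at h2
      rw [sub_sub_sub_cancel_left, norm_sub_rev]
      linarith
    rw [← h1]
    refine wind_congr fun w hw => ?_
    have hcont : ContinuousAt (fun v : ℂ => (r : ℂ) * v) w := by fun_prop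
    have h2 : ∀ᶠ v in 𝓝 w, (r : ℂ) * v ∈ ann D :=
      hcont.eventually ((isOpen_ann D).mem_nhds (hBD (hKB (hKr r hr w hw))))
    filter_upwards [h2] with v hv
    exact hp4 _ hv
  have hza : ∀ i, ra < ‖z i‖ := fun i => by
    have := (abs_lt.1 (hz1 i)).1
    rw [hra]; linarith
  have hzb : ∀ i, ‖z i‖ < rb := fun i => by
    have := (abs_lt.1 (hz1 i)).2
    rw [hrb]; linarith
  have hwa := hw ra (Or.inl rfl) hra0 fun i => (hza i).ne'
  have hwb := hw rb (Or.inr rfl) hrb0 fun i => (hzb i).ne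
  rw [hn1, Finset.sum_eq_zero (fun i _ => if_neg (not_lt.2 (hza i).le)), add_zero] at hwa
  rw [hn2, Finset.sum_congr rfl (fun i _ => if_pos (hzb i))] at hwb
  simp only [Finset.sum_const, Finset.card_univ, Fintype.card_fin, nsmul_eq_mul, mul_one] at hwb
  have hrb1 := hrad rb ⟨by rw [hrb]; linarith, by rw [hrb]⟩
  have h11 := hrad 1 ⟨by linarith, by linarith⟩
  rw [← hra, ← hwa] at hrb1 h11
  rw [hrb1] at hwb
  have hk : (n2 - n1).toNat = k := by
    have h1 : (n2 : ℂ) = ((n1 + k : ℤ) : ℂ) := by rw [hwb]; push_cast; ring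
    have h2 : n2 = n1 + k := by exact_mod_cast h1
    rw [h2]
    simp
  rw [hk]
  have hwind : wind psi = n1 := by
    rw [← h11]
    congr 1
    funext w
    simp
  have hD2 : ann (D / 2) ⊆ ann D := ann_half hD0
  have hprodlow : ∀ w : ℂ, ‖w‖ = 1 - D / 2 ∨ ‖w‖ = 1 + D / 2 →
      (D / 4) ^ k ≤ ‖∏ i, (w - z i)‖ ∧ ‖∏ i, (w - z i)‖ ≤ 4 ^ k := by
    intro w hw
    rw [norm_prod]
    have h1 : ∀ i, D / 4 ≤ ‖w - z i‖ ∧ ‖w - z i‖ ≤ 4 := by
      intro i
      have h2 := abs_lt.1 (hz1 i)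
      have h3 := abs_norm_sub_norm_le w (z i)
      have h4 := norm_sub_le w (z i)
      have h5 := (abs_le.1 h3).1
      have h6 := (abs_le.1 h3).2
      rcases hw with hw | hw <;> rw [hw] at h4 h5 h6 <;> constructor <;> linarith [h2.1, h2.2]
    constructor
    · calc (D / 4) ^ k = ∏ _i : Fin k, (D / 4) := by
            rw [Finset.prod_const, Finset.card_univ, Fintype.card_fin]
        _ ≤ ∏ i, ‖w - z i‖ := Finset.prod_le_prod (fun _ _ => by positivity) fun i _ => (h1 i).1
    · calc ∏ i, ‖w - z i‖ ≤ ∏ _i : Fin k, (4 : ℝ) :=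
          Finset.prod_le_prod (fun _ _ => norm_nonneg _) fun i _ => (h1 i).2
        _ = 4 ^ k := by rw [Finset.prod_const, Finset.card_univ, Fintype.card_fin]
  have hcirc : ∀ w : ℂ, ‖w‖ = 1 - D / 2 ∨ ‖w‖ = 1 + D / 2 → w ∈ K := by
    intro w hw
    rw [hKmem]
    rcases hw with h | h
    · rw [h, show 1 - D / 2 - 1 = -(D / 2) by ring, abs_neg, abs_of_pos (by linarith)]
      constructor <;> linarith
    · rw [h, show 1 + D / 2 - 1 = D / 2 by ring, abs_of_pos (by linarith)]
      constructor <;> linarith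
  have hDk : (0 : ℝ) < (D / 4) ^ k := by positivity
  have hup := norm_le_ann (half_pos hD0) (half_lt_self hD0) hD1 hp1 (M := M1 / (D / 4) ^ k)
    (fun w hw => by
      have h1 := hp4 w (hBD (hKB (hcirc w hw)))
      have h2 := hupp w (hKB (hcirc w hw))
      beta_reduce at h1
      rw [h1, norm_mul] at h2
      rw [le_div_iff₀ hDk]
      exact (mul_le_mul_of_nonneg_left (hprodlow w hw).1 (norm_nonneg _)).trans h2)
  have hsub34 : ann (3 * D / 4) ⊆ B := by
    intro w hw
    rw [hBmem, abs_le]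
    constructor <;> linarith [hw.1, hw.2]
  have hlo := norm_le_ann (d := 3 * D / 4) (d' := D / 2) (half_pos hD0) (by linarith) (by linarith)
    (g := fun w => (psi w)⁻¹)
    ((hp1.mono (hsub34.trans hBD)).inv fun w hw => hp2 w (hsub34 hw)) (M := 4 ^ k / c0)
    (fun w hw => by
      have h1 := hp4 w (hBD (hKB (hcirc w hw)))
      have h2 := hlow w (hcirc w hw)
      beta_reduce at h1
      rw [h1, norm_mul] at h2
      have h3 : c0 ≤ ‖psi w‖ * 4 ^ k :=
        h2.trans (mul_le_mul_of_nonneg_left (hprodlow w hw).2 (norm_nonneg _))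
      have h4 : 0 < ‖psi w‖ := norm_pos_iff.2 (hp2 w (hKB (hcirc w hw)))
      rw [norm_inv, inv_eq_one_div, div_le_div_iff₀ h4 hc0]
      linarith)
  refine ⟨z, psi, hp1.mono hD2, ?_, hwind, ?_, ?_, ?_⟩
  · intro w hw
    refine ⟨?_, hup w hw⟩
    have h1 := hlo w hw
    have h2 : 0 < ‖psi w‖ := norm_pos_iff.2 (hp2 w (hB' w hw.1.le hw.2.le))
    beta_reduce at h1
    rw [norm_inv, inv_eq_one_div, div_le_div_iff₀ h2 hc0] at h1
    rw [div_le_iff₀ (by positivity)]
    linarith
  · intro i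
    have h1 := abs_lt.1 (hz1 i)
    have h2 := (hp3 i).2
    beta_reduce at h2
    exact ⟨⟨by linarith [h1.1], by linarith [h1.2]⟩, sub_eq_zero.1 h2⟩
  · intro hlq i
    have h2 := (hp3 i).2
    beta_reduce at h2
    refine hq _ (hBD (hp3 i).1) ?_
    rw [← hlq]
    exact sub_eq_zero.1 h2
  · intro w hw
    exact hp4 w (hD2 hw)

end Pool.Agent.TBirR
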