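import Pool.Agent.TBirG.Main

/-!
# `T - q` is injective if the outer winding number at `q` is nonnegative

Proof. For `n : ℕ` let `De n` be the set of `g : Hardy` with `co g k = 0` for all `k ≥ n` (the
polynomials of degree `< n`; `De 0 = {0}`).
(a) If `‖a‖ = 1` and `(S - a) g ∈ De n` then `g ∈ De (n - 1)`: `co ((S - a) g) (k + 1) = co g k - a co g (k + 1)`,
so `|co g k|` is constant for `k ≥ n - 1`, and `co g k → 0`, so it is `0` there.
(b) `T Phi - q = T Psi * T (prod (fourier 1 - z i))` with `Psi t = psi (e t)`.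
(c) By `exists_hasWH` (TBir/WHm) `HasWH C eta Psi x`: `Psi = A * fourier x * B` with `A` minus, `B` plus and
their inverses `A'`, `B'` of the same kind: `T Psi = T A * T (fourier x) * T B`, `T A' T A = 1`, `T B' T B = 1`.
If `T Psi u = 0` then `T (fourier x) (T B u) = 0`. If `x ≥ 0` then `T B u = 0`. If `x = -n < 0` then
`T B u ∈ De n` (`T (fourier (-n))` is the shift of the coefficients by `n` to the left).
(d) `T B` commutes with `T (prod (fourier 1 - z i))` (both symbols are plus). So by (a) `k` times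
`T B v ∈ De (n - k)`, and `n ≤ k`, so `T B v = 0`, `v = 0`.
-/

set_option autoImplicit false

open MeasureTheory Complex Set Filter Topology Metric AddCircle
open scoped ComplexConjugate InnerProductSpace ENNReal

namespace Pool.Agent.TBirR

open Pool.Agent.TBir Pool.Agent.TBirG

private theorem inj_co_zero (n : ℕ) : co (0 : Hardy) n = 0 := by
  rw [← coL_apply, map_zero]

private theorem inj_step {a : ℂ} (ha : ‖a‖ = 1) {n : ℕ} {g : Hardy}
    (h : ∀ k, n ≤ k → co (T (fourier 1 - algebraMap ℂ CT a) g) k = 0) :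
    ∀ k, n - 1 ≤ k → co g k = 0 := by
  have hco : ∀ k, co (T (fourier 1 - algebraMap ℂ CT a) g) k = co (S g) k - a * co g k := by
    intro k
    rw [T_sub, T_algebraMap]
    change co (S g - a • g) k = _
    rw [← coL_apply, map_sub, map_smul, coL_apply, coL_apply, smul_eq_mul]
  have hs : ∀ k, n - 1 ≤ k → ‖co g (k + 1)‖ = ‖co g k‖ := by
    intro k hk
    have h1 := h (k + 1) (by omega)
    rw [hco, co_S_succ] at h1
    have h2 : co g k = a * co g (k + 1) := sub_eq_zero.1 h1
    rw [h2, norm_mul, ha, one_mul]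
  have hc : ∀ k, n - 1 ≤ k → ∀ j, ‖co g (k + j)‖ = ‖co g k‖ := by
    intro k hk j
    induction j with
    | zero => rfl
    | succ j ih => rw [← add_assoc, hs _ (by omega), ih]
  intro k hk
  have ht : Tendsto (fun j => ‖co g j‖ ^ 2) atTop (𝓝 0) :=
    (hasSum_sq_co g).summable.tendsto_atTop_zero
  have ht2 : Tendsto (fun j => ‖co g (k + j)‖ ^ 2) atTop (𝓝 0) := by
    have h3 := (tendsto_add_atTop_iff_nat k).2 ht
    refine h3.congr fun j => ?_
    rw [add_comm]
  have ht3 : Tendsto (fun _ : ℕ => ‖co g k‖ ^ 2) atTop (𝓝 0) :=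
    ht2.congr fun j => by rw [hc k hk j]
  have h5 : ‖co g k‖ ^ 2 = 0 := tendsto_nhds_unique tendsto_const_nhds ht3
  exact norm_eq_zero.1 (pow_eq_zero_iff (two_ne_zero)|>.1 h5)

private theorem inj_plus (a : ℂ) : Plus ((fourier 1 : CT) - algebraMap ℂ CT a) :=
  (plus_fourier (by norm_num)).sub (plus_algebraMap _)

private theorem inj_plus_prod : ∀ (k : ℕ) (z : Fin k → ℂ),
    Plus (∏ i, ((fourier 1 : CT) - algebraMap ℂ CT (z i))) := by
  intro k
  induction k with
  | zero =>
    intro z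
    rw [Finset.univ_eq_empty, Finset.prod_empty, ← map_one (algebraMap ℂ CT)]
    exact plus_algebraMap 1
  | succ k ih =>
    intro z
    rw [Fin.prod_univ_succ]
    exact (inj_plus _).mul (ih fun i => z i.succ)

private theorem inj_steps : ∀ (k : ℕ) (z : Fin k → ℂ), (∀ i, ‖z i‖ = 1) → ∀ (n : ℕ) (g : Hardy),
    (∀ j, n ≤ j → co (T (∏ i, ((fourier 1 : CT) - algebraMap ℂ CT (z i))) g) j = 0) →
    ∀ j, n - k ≤ j → co g j = 0 := by
  intro k
  induction k with
  | zero =>
    intro z hz n g h j hj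
    have h1 := h j (by omega)
    rw [Finset.univ_eq_empty, Finset.prod_empty, T_one] at h1
    exact h1
  | succ k ih =>
    intro z hz n g h j hj
    refine ih (fun i => z i.succ) (fun i => hz i.succ) (n - 1) g ?_ j (by omega)
    refine inj_step (hz 0) fun m hm => ?_
    have h1 := h m hm
    rw [Fin.prod_univ_succ, T_mul_right _ (inj_plus_prod k fun i => z i.succ)] at h1
    exact h1

private theorem inj_shift {n : ℕ} {g : Hardy} (h : T (fourier (-(n : ℤ))) g = 0) :
    ∀ j, n ≤ j → co g j = 0 := by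
  intro j hj
  obtain ⟨m, rfl⟩ := Nat.exists_eq_add_of_le hj
  have h1 := hasSum_co_T (fourier (-(n : ℤ))) g m
  rw [h, inj_co_zero] at h1
  have h2 : HasSum (fun i : ℕ => fourierCoeff (fourier (-(n : ℤ)) : CT) ((m : ℤ) - i) * co g i)
      (fourierCoeff (fourier (-(n : ℤ)) : CT) ((m : ℤ) - ((n + m : ℕ) : ℤ)) * co g (n + m)) := by
    refine hasSum_single (n + m) fun i hi => ?_
    rw [idx_fourierCoeff_fourier, if_neg (by omega), zero_mul]
  have h3 := h1.unique h2
  rw [idx_fourierCoeff_fourier, if_pos (by push_cast; ring), one_mul] at h3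
  exact h3.symm

theorem inj_of_fac {psi : ℂ → ℂ} (hpsi : AnalyticOnNhd ℂ psi (sphere 0 1))
    (h0 : ∀ w ∈ sphere (0 : ℂ) 1, psi w ≠ 0) {x : ℤ} (hx : wind psi = x) {k : ℕ} {z : Fin k → ℂ}
    (hz : ∀ i, ‖z i‖ = 1) (hk : 0 ≤ x + k) {Phi : CT} {q : ℂ}
    (hfac : ∀ t, Phi t - q = psi (e t) * ∏ i, (e t - z i)) {v : Hardy} (hv : T Phi v = q • v) :
    v = 0 := by
  have hes : ∀ t : UnitAddCircle, e t ∈ sphere (0 : ℂ) 1 := fun t => by
    rw [mem_sphere_zero_iff_norm]; exact norm_e t
  have hcont : Continuous fun t : UnitAddCircle => psi (e t) :=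
    hpsi.continuousOn.comp_continuous continuous_e hes
  obtain ⟨Psi, hPsi⟩ : ∃ Psi : CT, ∀ t, Psi t = psi (e t) := ⟨⟨_, hcont⟩, fun t => rfl⟩
  obtain ⟨C, eta, _, heta, bp, bm, cp, cm, hbp, hbm, hcp, hcm, h1, h2, h3⟩ :=
    exists_hasWH hpsi h0 hPsi hx
  have sbp := summable_of_dec heta hbp
  have sbm := summable_of_dec heta hbm
  have scp := summable_of_dec heta hcp
  have scm := summable_of_dec heta hcm
  have e1 : T (plusS bp) * T (plusS cp) = 1 := by
    rw [← T_mul_right _ (plus_plusS scp), h1, T_one]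
  have e2 : T (minusS bm) * T (minusS cm) = 1 := by
    rw [← T_mul_left (minus_minusS sbm), h2, T_one]
  obtain ⟨P, hP⟩ : ∃ P : CT, P = ∏ i, ((fourier 1 : CT) - algebraMap ℂ CT (z i)) := ⟨_, rfl⟩
  have hPp : Plus P := by rw [hP]; exact inj_plus_prod k z
  have hPt : ∀ t, P t = ∏ i, (e t - z i) := by
    intro t
    rw [hP, ContinuousMap.prod_apply]
    refine Finset.prod_congr rfl fun i _ => ?_
    rw [ContinuousMap.sub_apply, fourier_one_apply, Algebra.algebraMap_eq_smul_one,
      ContinuousMap.smul_apply, ContinuousMap.one_apply, smul_eq_mul, mul_one]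
  have h4 : Phi - algebraMap ℂ CT q = Psi * P := by
    ext t
    rw [ContinuousMap.mul_apply, hPsi, hPt, ← hfac, ContinuousMap.sub_apply,
      Algebra.algebraMap_eq_smul_one, ContinuousMap.smul_apply, ContinuousMap.one_apply,
      smul_eq_mul, mul_one]
  have h5 : T Psi (T P v) = 0 := by
    have h6 : T (Phi - algebraMap ℂ CT q) v = 0 := by
      rw [T_sub_smul]
      change T Phi v - q • v = 0
      rw [hv, sub_self]
    rw [h4, T_mul_right _ hPp] at h6
    exact h6
  have h7 : T (fourier x) (T (plusS cp) (T P v)) = 0 := by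
    rw [h3, idx_T_factor (minus_minusS scm) (plus_plusS scp)] at h5
    have h8 := congrArg (T (minusS bm)) h5
    rw [map_zero] at h8
    have h9 : T (minusS bm) ((T (minusS cm) * (T (fourier x) * T (plusS cp))) (T P v)) =
        (T (minusS bm) * T (minusS cm)) (T (fourier x) (T (plusS cp) (T P v))) := rfl
    rw [h9, e2] at h8
    exact h8
  obtain ⟨n, hn, hdn⟩ : ∃ n : ℕ, n ≤ k ∧ ∀ j, n ≤ j → co (T (plusS cp) (T P v)) j = 0 := by
    rcases le_or_gt 0 x with hx0 | hx0
    · obtain ⟨m, rfl⟩ := Int.eq_ofNat_of_zero_le hx0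
      refine ⟨0, Nat.zero_le _, fun j _ => ?_⟩
      have h10 := congrArg (fun L : Hardy →L[ℂ] Hardy => L (T (plusS cp) (T P v)))
        (T_fourier_neg_mul (n := m))
      have h11 : T (fourier (-(m : ℤ))) (T (fourier (m : ℤ)) (T (plusS cp) (T P v))) =
          T (plusS cp) (T P v) := h10
      rw [h7, map_zero] at h11
      rw [← h11, inj_co_zero]
    · obtain ⟨m, hm⟩ : ∃ m : ℕ, x = -(m : ℤ) := ⟨x.natAbs, by omega⟩
      refine ⟨m, by omega, ?_⟩
      rw [hm] at h7
      exact inj_shift h7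
  have h12 : T (plusS cp) (T P v) = T P (T (plusS cp) v) := by
    have h13 : T (plusS cp) * T P = T P * T (plusS cp) := by
      rw [← T_mul_right _ hPp, ← T_mul_right _ (plus_plusS scp), mul_comm]
    exact congrArg (fun L : Hardy →L[ℂ] Hardy => L v) h13
  rw [h12, hP] at hdn
  have h14 : T (plusS cp) v = 0 := by
    apply ext_co
    intro j
    rw [inj_co_zero]
    exact inj_steps k z hz n _ hdn j (by omega)
  have h15 : T (plusS bp) (T (plusS cp) v) = v :=
    congrArg (fun L : Hardy →L[ℂ] Hardy => L v) e1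
  rw [← h15, h14, map_zero]

end Pool.Agent.TBirR
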