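import Pool.Agent.TBirG.Main

/-!
# Polynomial growth in the distance to a thin set gives a pole

Let `N` be given, `del = 1 / (2 (N + 1))`.

(1) `circle_pow`: for `F` analytic on `closedBall c s`, `F c ≠ 0`, Jensen's formula for a constant
multiple of `F` and `log x ≤ x ^ del / del` give
`e⁻¹ ‖F c‖ ^ del ≤ circleAverage (‖F ·‖ ^ del) c s`.

(2) `area_pow`: the same with the area average over a ball, by polar coordinates.

(3) `lintegral_maj`: the dyadic majorant `maj K` of the power `-1/2` of the distance to `K` has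
integral at most `4 A` over the plane.

(4) `area_bound`: off `K`, `‖F l‖ ^ del ≤ C ^ del (1 + maj K l)`, hence
`r ^ (4 (N + 1)) ‖F c‖ ≤ C (e (1 + 4 A / pi)) ^ (2 (N + 1))` if `F` is analytic on `ball c r`.

(5) `pole_bound`: apply (4) with `r = ‖c - q‖`; the singularity of `(l - q) ^ (4 N + 5) F l` at `q`
is removable.
-/

set_option autoImplicit false

open MeasureTheory Complex Set Filter Topology Metric AddCircle
open scoped ComplexConjugate InnerProductSpace ENNReal

namespace Pool.Agent.TBirR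

private theorem circle_pow {c : ℂ} {s del : ℝ} (hs : 0 < s) (hd : 0 < del) {F : ℂ → ℂ}
    (hF : AnalyticOnNhd ℂ F (closedBall c s)) (hc : F c ≠ 0) :
    Real.exp (-1) * ‖F c‖ ^ del ≤ Real.circleAverage (fun z => ‖F z‖ ^ del) c s := by
  have hc0 : 0 < ‖F c‖ := norm_pos_iff.2 hc
  set M : ℝ := Real.exp (1 / del) / ‖F c‖ with hM
  have hM0 : 0 < M := by positivity
  set F' : ℂ → ℂ := fun z => (M : ℂ) * F z with hF'
  have hn : ∀ z, ‖F' z‖ = M * ‖F z‖ := fun z => by
    simp [hF', abs_of_pos hM0]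
  have hA : AnalyticOnNhd ℂ F' (closedBall c |s|) := by
    rw [abs_of_pos hs]
    exact analyticOnNhd_const.mul hF
  have hc' : F' c ≠ 0 := by
    simp [hF', hc, hM0.ne']
  have h1 := AnalyticOnNhd.circleAverage_log_norm hs.ne' hA hc'
  have h2 : 0 ≤ ∑ᶠ u, (MeromorphicOn.divisor F' (closedBall c |s|) u : ℝ) *
      Real.log (s * ‖c - u‖⁻¹) := by
    refine finsum_nonneg fun u => ?_
    by_cases hu : u ∈ closedBall c |s|
    · refine mul_nonneg ?_ ?_
      · exact_mod_cast (MeromorphicOn.AnalyticOnNhd.divisor_nonneg hA) u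
      · by_cases huc : u = c
        · simp [huc]
        · refine Real.log_nonneg ?_
          have h3 : 0 < ‖c - u‖ := norm_pos_iff.2 (sub_ne_zero.2 (Ne.symm huc))
          rw [← div_eq_mul_inv, le_div_iff₀ h3, one_mul]
          rw [abs_of_pos hs, mem_closedBall, dist_comm, dist_eq_norm] at hu
          exact hu
    · rw [Function.locallyFinsuppWithin.apply_eq_zero_of_notMem _ hu]
      simp
  have h4 : Real.log ‖F' c‖ = 1 / del := by
    rw [hn, hM, div_mul_cancel₀ _ hc0.ne', Real.log_exp]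
  have h5 : CircleIntegrable (fun z => ‖F z‖ ^ del) c s := by
    refine ContinuousOn.circleIntegrable hs.le ?_
    refine ContinuousOn.rpow_const ?_ fun x _ => Or.inr hd.le
    exact (hF.continuousOn.mono sphere_subset_closedBall).norm
  have h6 : Real.circleAverage (fun z => Real.log ‖F' z‖) c s ≤
      Real.circleAverage (fun z => (M ^ del / del) • ‖F z‖ ^ del) c s := by
    refine Real.circleAverage_mono ?_ ?_ fun z _ => ?_
    · exact (hA.mono sphere_subset_closedBall).meromorphicOn.circleIntegrable_log_norm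
    · exact h5.const_smul
    · rw [smul_eq_mul, div_mul_eq_mul_div, ← Real.mul_rpow hM0.le (norm_nonneg _), ← hn]
      exact Real.log_le_rpow_div (norm_nonneg _) hd
  rw [Real.circleAverage_fun_smul, smul_eq_mul] at h6
  have h7 : 1 / del ≤ M ^ del / del * Real.circleAverage (fun z => ‖F z‖ ^ del) c s := by
    linarith [h1, h2, h4, h6]
  have h8 : M ^ del = Real.exp 1 / ‖F c‖ ^ del := by
    rw [hM, Real.div_rpow (Real.exp_pos _).le hc0.le, ← Real.exp_mul, one_div,
      inv_mul_cancel₀ hd.ne']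
  rw [h8, div_mul_eq_mul_div, div_le_div_iff_of_pos_right hd] at h7
  have h9 : 0 < ‖F c‖ ^ del := Real.rpow_pos_of_pos hc0 _
  rw [div_mul_eq_mul_div, le_div_iff₀ h9, one_mul] at h7
  rw [Real.exp_neg, inv_mul_le_iff₀ (Real.exp_pos 1)]
  exact h7

/-- integration in polar coordinates centred at `c` -/
private theorem lintegral_polar (c : ℂ) {g : ℂ → ℝ≥0∞} (hg : Measurable g) :
    ∫⁻ l, g l = ∫⁻ s in Ioi (0 : ℝ), ENNReal.ofReal s * ∫⁻ t in Ioo (-Real.pi) Real.pi,
      g (circleMap c s t) := by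
  rw [← lintegral_add_left_eq_self g c, ← Complex.lintegral_comp_polarCoord_symm,
    polarCoord_target, Measure.volume_eq_prod, setLIntegral_prod]
  · refine setLIntegral_congr_fun measurableSet_Ioi fun s _ => ?_
    rw [← lintegral_const_mul]
    · refine lintegral_congr fun t => ?_
      simp only [smul_eq_mul, Complex.polarCoord_symm_apply, circleMap, Complex.exp_mul_I,
        Complex.ofReal_cos, Complex.ofReal_sin]
    · exact hg.comp (by fun_prop)
  · refine Measurable.aemeasurable ?_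
    simp only [smul_eq_mul, Complex.polarCoord_symm_apply]
    exact Measurable.mul (by fun_prop) (hg.comp (by fun_prop))

private theorem area_pow {c : ℂ} {sig del : ℝ} (hd : 0 < del) {F : ℂ → ℂ}
    (hF : DifferentiableOn ℂ F (ball c sig)) (hc : F c ≠ 0) :
    ENNReal.ofReal (Real.exp (-1) * ‖F c‖ ^ del) * volume (ball c sig) ≤
      ∫⁻ l in ball c sig, ENNReal.ofReal (‖F l‖ ^ del) := by
  classical
  have hcont : ContinuousOn (fun l => ‖F l‖ ^ del) (ball c sig) :=
    ContinuousOn.rpow_const hF.continuousOn.norm fun x _ => Or.inr hd.le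
  have hmeas : Measurable ((ball c sig).indicator fun l => ENNReal.ofReal (‖F l‖ ^ del)) := by
    rw [← Set.piecewise_eq_indicator]
    refine ContinuousOn.measurable_piecewise ?_ continuousOn_const measurableSet_ball
    exact ENNReal.continuous_ofReal.comp_continuousOn hcont
  have hmeas1 : Measurable ((ball c sig).indicator fun _ =>
      ENNReal.ofReal (Real.exp (-1) * ‖F c‖ ^ del)) :=
    measurable_const.indicator measurableSet_ball
  rw [← lintegral_indicator measurableSet_ball, ← lintegral_indicator_const measurableSet_ball,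
    lintegral_polar c hmeas, lintegral_polar c hmeas1]
  refine lintegral_mono_ae ?_
  rw [ae_restrict_iff' measurableSet_Ioi]
  refine Eventually.of_forall fun s hs => ?_
  refine mul_le_mul_right ?_ _
  have hs0 : 0 < s := hs
  by_cases h : s < sig
  · have h1 : ∀ t, circleMap c s t ∈ ball c sig := fun t => by
      rw [mem_ball, dist_eq_norm, circleMap_sub_center, norm_circleMap_zero, abs_of_pos hs0]
      exact h
    simp only [Set.indicator_of_mem (h1 _)]
    have h2 : AnalyticOnNhd ℂ F (closedBall c s) :=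
      (hF.analyticOnNhd isOpen_ball).mono (closedBall_subset_ball h)
    have h3 := circle_pow hs0 hd h2 hc
    have h4 : Real.circleAverage (fun z => ‖F z‖ ^ del) c s =
        (2 * Real.pi)⁻¹ * ∫ t in Ioo (-Real.pi) Real.pi, ‖F (circleMap c s t)‖ ^ del := by
      rw [Real.circleAverage_eq_integral_add (-Real.pi), smul_eq_mul]
      congr 1
      rw [intervalIntegral.integral_comp_add_right (fun t => ‖F (circleMap c s t)‖ ^ del),
        intervalIntegral.integral_of_le (by linarith [Real.pi_pos]), ← integral_Ioc_eq_integral_Ioo]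
      congr 3 <;> ring
    have h5 : IntegrableOn (fun t => ‖F (circleMap c s t)‖ ^ del) (Ioo (-Real.pi) Real.pi) := by
      have h6 : Continuous fun t => ‖F (circleMap c s t)‖ ^ del :=
        hcont.comp_continuous (continuous_circleMap c s) h1
      exact (h6.integrableOn_Icc (a := -Real.pi) (b := Real.pi)).mono_set Ioo_subset_Icc_self
    rw [← ofReal_integral_eq_lintegral_ofReal h5
      (Eventually.of_forall fun t => Real.rpow_nonneg (norm_nonneg _) _), setLIntegral_const,
      Real.volume_Ioo, ← ENNReal.ofReal_mul (by positivity)]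
    refine ENNReal.ofReal_le_ofReal ?_
    rw [h4, ← div_eq_inv_mul, le_div_iff₀ (by positivity)] at h3
    refine le_trans (le_of_eq ?_) h3
    ring
  · have h1 : ∀ t, circleMap c s t ∉ ball c sig := fun t => by
      rw [mem_ball, dist_eq_norm, circleMap_sub_center, norm_circleMap_zero, abs_of_pos hs0]
      exact h
    simp only [Set.indicator_of_notMem (h1 _)]
    exact le_rfl

/-- dyadic majorant of the power `-1/2` of the distance to `K` -/
private noncomputable def maj (K : Set ℂ) (l : ℂ) : ℝ≥0∞ :=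
  ∑' k : ℕ, {l : ℂ | infDist l K ≤ (1 / 4) ^ k}.indicator (fun _ => ENNReal.ofReal (2 ^ (k + 1))) l

private theorem measurableSet_maj (K : Set ℂ) (e : ℝ) : MeasurableSet {l : ℂ | infDist l K ≤ e} :=
  (isClosed_le (continuous_infDist_pt K) continuous_const).measurableSet

private theorem lintegral_maj {K : Set ℂ} {A : ℝ} (hA : 0 < A)
    (hvol : ∀ eps : ℝ, 0 < eps → eps ≤ 1 →
      volume {l : ℂ | infDist l K ≤ eps} ≤ ENNReal.ofReal (A * eps)) :
    ∫⁻ l, maj K l ≤ ENNReal.ofReal (4 * A) := by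
  have h1 : ∫⁻ l, maj K l = ∑' k : ℕ, ENNReal.ofReal (2 ^ (k + 1)) *
      volume {l : ℂ | infDist l K ≤ (1 / 4) ^ k} := by
    unfold maj
    rw [lintegral_tsum]
    · refine tsum_congr fun k => ?_
      rw [lintegral_indicator_const (measurableSet_maj K _)]
    · exact fun k => (measurable_const.indicator (measurableSet_maj K _)).aemeasurable
  rw [h1]
  have h2 : ∀ k : ℕ, ENNReal.ofReal (2 ^ (k + 1)) * volume {l : ℂ | infDist l K ≤ (1 / 4) ^ k} ≤
      ENNReal.ofReal (2 * A * (1 / 2) ^ k) := by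
    intro k
    calc ENNReal.ofReal (2 ^ (k + 1)) * volume {l : ℂ | infDist l K ≤ (1 / 4) ^ k}
        ≤ ENNReal.ofReal (2 ^ (k + 1)) * ENNReal.ofReal (A * (1 / 4) ^ k) := by
          gcongr
          exact hvol _ (by positivity) (pow_le_one₀ (by norm_num) (by norm_num))
      _ = ENNReal.ofReal (2 * A * (1 / 2) ^ k) := by
          rw [← ENNReal.ofReal_mul (by positivity)]
          congr 1
          have h3 : ((1 : ℝ) / 4) ^ k = (1 / 2) ^ k * (1 / 2) ^ k := by
            rw [← mul_pow]; norm_num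
          have h4 : (2 : ℝ) ^ k * (1 / 2) ^ k = 1 := by
            rw [← mul_pow]; norm_num
          rw [h3, pow_succ]
          linear_combination (2 * A * (1 / 2) ^ k) * h4
  refine (ENNReal.tsum_le_tsum h2).trans ?_
  have h5 : Summable fun k : ℕ => 2 * A * (1 / 2 : ℝ) ^ k :=
    (summable_geometric_of_lt_one (by norm_num) (by norm_num)).mul_left _
  rw [← ENNReal.ofReal_tsum_of_nonneg (fun k => by positivity) h5, tsum_mul_left,
    tsum_geometric_of_lt_one (by norm_num) (by norm_num)]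
  refine ENNReal.ofReal_le_ofReal (le_of_eq ?_)
  norm_num
  ring

private theorem volume_zero {K : Set ℂ} {A : ℝ}
    (hvol : ∀ eps : ℝ, 0 < eps → eps ≤ 1 →
      volume {l : ℂ | infDist l K ≤ eps} ≤ ENNReal.ofReal (A * eps)) : volume K = 0 := by
  refine le_antisymm ?_ zero_le
  have h1 : ∀ eps : ℝ, 0 < eps → eps ≤ 1 → volume K ≤ ENNReal.ofReal (A * eps) := by
    intro eps h0 h1
    refine (measure_mono fun l hl => ?_).trans (hvol eps h0 h1)
    show infDist l K ≤ eps
    rw [infDist_zero_of_mem hl]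
    exact h0.le
  have h2 : Tendsto (fun eps : ℝ => ENNReal.ofReal (A * eps)) (𝓝[>] 0) (𝓝 0) := by
    have h3 : Tendsto (fun eps : ℝ => ENNReal.ofReal (A * eps)) (𝓝 0)
        (𝓝 (ENNReal.ofReal (A * 0))) :=
      (ENNReal.continuous_ofReal.comp (continuous_const.mul continuous_id)).tendsto 0
    rw [mul_zero, ENNReal.ofReal_zero] at h3
    exact h3.mono_left nhdsWithin_le_nhds
  refine ge_of_tendsto h2 ?_
  filter_upwards [Ioc_mem_nhdsGT (zero_lt_one (α := ℝ))] with eps he
  exact h1 eps he.1 he.2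

private theorem pt_bound {K : Set ℂ} {l : ℂ} (hl : 0 < infDist l K) {N : ℕ} {x C : ℝ}
    (hx : 0 ≤ x) (hC : 0 ≤ C) (h : x ≤ C * (infDist l K)⁻¹ ^ N) :
    ENNReal.ofReal (x ^ (((2 * (N + 1) : ℕ) : ℝ)⁻¹)) ≤
      ENNReal.ofReal (C ^ (((2 * (N + 1) : ℕ) : ℝ)⁻¹)) * (1 + maj K l) := by
  set d := infDist l K with hd
  set del : ℝ := ((2 * (N + 1) : ℕ) : ℝ)⁻¹ with hdel
  have hdel0 : 0 ≤ del := by positivity
  by_cases hd1 : 1 ≤ d
  · have h1 : x ≤ C := by
      refine h.trans ?_
      have h2 : d⁻¹ ^ N ≤ 1 := pow_le_one₀ (by positivity) (inv_le_one_of_one_le₀ hd1)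
      nlinarith
    calc ENNReal.ofReal (x ^ del) ≤ ENNReal.ofReal (C ^ del) * 1 := by
          rw [mul_one]
          exact ENNReal.ofReal_le_ofReal (Real.rpow_le_rpow hx h1 hdel0)
      _ ≤ _ := by gcongr; exact le_self_add
  · push Not at hd1
    obtain ⟨k, hk1, hk2⟩ := exists_nat_pow_near_of_lt_one hl hd1.le
      (show (0 : ℝ) < 1 / 4 by norm_num) (by norm_num)
    have h1 : d⁻¹ ≤ 4 ^ (k + 1) := by
      rw [inv_le_comm₀ hl (by positivity)]
      refine le_trans (le_of_eq ?_) hk1.le
      rw [one_div, inv_pow]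
    have h2 : x ≤ C * (2 ^ (k + 1)) ^ (2 * (N + 1)) := by
      refine h.trans (mul_le_mul_of_nonneg_left ?_ hC)
      calc d⁻¹ ^ N ≤ (4 ^ (k + 1)) ^ N := pow_le_pow_left₀ (by positivity) h1 N
        _ ≤ (4 ^ (k + 1)) ^ (N + 1) :=
            pow_le_pow_right₀ (one_le_pow₀ (by norm_num)) (Nat.le_succ N)
        _ = (2 ^ (k + 1)) ^ (2 * (N + 1)) := by
            rw [pow_mul, ← pow_mul 2 (k + 1) 2, mul_comm (k + 1) 2, pow_mul]
            norm_num
    have h3 : x ^ del ≤ C ^ del * 2 ^ (k + 1) := by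
      calc x ^ del ≤ (C * (2 ^ (k + 1)) ^ (2 * (N + 1))) ^ del := Real.rpow_le_rpow hx h2 hdel0
        _ = C ^ del * 2 ^ (k + 1) := by
            rw [Real.mul_rpow hC (by positivity), hdel, Real.pow_rpow_inv_natCast (by positivity)
              (by positivity)]
    calc ENNReal.ofReal (x ^ del) ≤ ENNReal.ofReal (C ^ del * 2 ^ (k + 1)) :=
          ENNReal.ofReal_le_ofReal h3
      _ = ENNReal.ofReal (C ^ del) * ENNReal.ofReal (2 ^ (k + 1)) :=
          ENNReal.ofReal_mul (by positivity)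
      _ ≤ ENNReal.ofReal (C ^ del) * (1 + maj K l) := by
          gcongr
          refine le_trans ?_ le_add_self
          unfold maj
          refine le_trans (le_of_eq ?_) (ENNReal.le_tsum k)
          rw [Set.indicator_of_mem]
          exact hk2

private theorem area_bound {K : Set ℂ} (hK : IsClosed K) (hKn : K.Nonempty) {A : ℝ} (hA : 0 < A)
    (hvol : ∀ eps : ℝ, 0 < eps → eps ≤ 1 →
      volume {l : ℂ | infDist l K ≤ eps} ≤ ENNReal.ofReal (A * eps)) {N : ℕ} {c : ℂ} {r C : ℝ}
    (hr : 0 < r) (hr1 : r ≤ 1) (hC : 0 < C) {F : ℂ → ℂ} (hF : DifferentiableOn ℂ F (ball c r))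
    (hb : ∀ l ∈ ball c r, l ∉ K → ‖F l‖ ≤ C * (infDist l K)⁻¹ ^ N) :
    r ^ (4 * (N + 1)) * ‖F c‖ ≤
      C * (Real.exp 1 * (1 + 4 * A / Real.pi)) ^ (2 * (N + 1)) := by
  by_cases hc : F c = 0
  · rw [hc, norm_zero, mul_zero]
    positivity
  set m : ℕ := 2 * (N + 1) with hm
  have hm0 : m ≠ 0 := by omega
  set del : ℝ := ((m : ℕ) : ℝ)⁻¹ with hdel
  have hdel0 : 0 < del := by positivity
  have h1 := area_pow hdel0 hF hc
  have h2 : ∫⁻ l in ball c r, ENNReal.ofReal (‖F l‖ ^ del) ≤
      ∫⁻ l in ball c r, ENNReal.ofReal (C ^ del) * (1 + maj K l) := by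
    refine lintegral_mono_ae ?_
    rw [ae_restrict_iff' measurableSet_ball]
    have h3 : ∀ᵐ l : ℂ, l ∉ K := measure_eq_zero_iff_ae_notMem.1 (volume_zero hvol)
    filter_upwards [h3] with l hl hlb
    exact pt_bound ((hK.notMem_iff_infDist_pos hKn).1 hl) (norm_nonneg _) hC.le (hb l hlb hl)
  have hmeas : Measurable (maj K) := by
    unfold maj
    exact Measurable.tsum fun k => measurable_const.indicator (measurableSet_maj K _)
  have h4 : ∫⁻ l in ball c r, ENNReal.ofReal (C ^ del) * (1 + maj K l) ≤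
      ENNReal.ofReal (C ^ del * (Real.pi + 4 * A)) := by
    have hmeas2 : Measurable fun l => 1 + maj K l := measurable_const.add hmeas
    rw [lintegral_const_mul _ hmeas2, ENNReal.ofReal_mul (by positivity)]
    gcongr
    rw [lintegral_add_left measurable_const, ENNReal.ofReal_add (by positivity) (by positivity)]
    refine add_le_add ?_ ?_
    · rw [setLIntegral_const, one_mul, Complex.volume_ball]
      have h5 : (NNReal.pi : ℝ≥0∞) = ENNReal.ofReal Real.pi := by
        rw [← NNReal.coe_real_pi, ENNReal.ofReal_coe_nnreal]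
      rw [h5]
      have h6 : ENNReal.ofReal r ^ 2 ≤ 1 := by
        refine pow_le_one₀ zero_le ?_
        rw [← ENNReal.ofReal_one]
        exact ENNReal.ofReal_le_ofReal hr1
      calc ENNReal.ofReal r ^ 2 * ENNReal.ofReal Real.pi ≤ 1 * ENNReal.ofReal Real.pi := by gcongr
        _ = _ := one_mul _
    · exact (setLIntegral_le_lintegral _ _).trans (lintegral_maj hA hvol)
  have h7 := (h1.trans h2).trans h4
  rw [Complex.volume_ball, show (NNReal.pi : ℝ≥0∞) = ENNReal.ofReal Real.pi by
    rw [← NNReal.coe_real_pi, ENNReal.ofReal_coe_nnreal], ← ENNReal.ofReal_pow hr.le,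
    ← ENNReal.ofReal_mul (by positivity), ← ENNReal.ofReal_mul (by positivity),
    ENNReal.ofReal_le_ofReal_iff (by positivity)] at h7
  have h8 : r ^ 2 * ‖F c‖ ^ del ≤ C ^ del * (Real.exp 1 * (1 + 4 * A / Real.pi)) := by
    have h9 : Real.exp (-1) * Real.exp 1 = 1 := by rw [← Real.exp_add]; simp
    have h10 : C ^ del * (Real.exp 1 * (1 + 4 * A / Real.pi)) =
        (C ^ del * (Real.pi + 4 * A)) * (Real.exp 1 / Real.pi) := by
      field_simp
    have h11 : r ^ 2 * ‖F c‖ ^ del =
        (Real.exp (-1) * ‖F c‖ ^ del * (r ^ 2 * Real.pi)) * (Real.exp 1 / Real.pi) := by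
      calc r ^ 2 * ‖F c‖ ^ del = (Real.exp (-1) * Real.exp 1) * (r ^ 2 * ‖F c‖ ^ del) := by
            rw [h9, one_mul]
        _ = _ := by field_simp
    rw [h10, h11]
    gcongr
  have h12 := pow_le_pow_left₀ (by positivity) h8 m
  rw [mul_pow, mul_pow, ← pow_mul, hdel, Real.rpow_inv_natCast_pow (norm_nonneg _) hm0,
    Real.rpow_inv_natCast_pow hC.le hm0] at h12
  rw [show 4 * (N + 1) = 2 * m by omega]
  exact h12

theorem pole_bound {K : Set ℂ} (hK : IsClosed K) (hKn : K.Nonempty) {A : ℝ} (hA : 0 < A)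
    (hvol : ∀ eps : ℝ, 0 < eps → eps ≤ 1 →
      volume {l : ℂ | infDist l K ≤ eps} ≤ ENNReal.ofReal (A * eps)) (N : ℕ) :
    ∃ n : ℕ, ∀ (q : ℂ) (rho C : ℝ) (F : ℂ → ℂ), 0 < rho →
      DifferentiableOn ℂ F (ball q rho \ {q}) →
      (∀ l ∈ ball q rho, l ∉ K → ‖F l‖ ≤ C * (infDist l K)⁻¹ ^ N) →
      ∃ s > 0, ∃ G : ℂ → ℂ, DifferentiableOn ℂ G (ball q s) ∧
        ∀ l ∈ ball q s, l ≠ q → G l = (l - q) ^ n * F l := by
  classical
  refine ⟨4 * (N + 1) + 1, fun q rho C F hrho hF hb => ?_⟩
  set s : ℝ := min (rho / 2) 1 with hs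
  have hs0 : 0 < s := lt_min (by linarith) one_pos
  have hs1 : s ≤ rho / 2 := min_le_left _ _
  have hs2 : s ≤ 1 := min_le_right _ _
  set C1 : ℝ := max C 1 with hC1
  have hC10 : 0 < C1 := lt_of_lt_of_le one_pos (le_max_right _ _)
  set D : ℝ := C1 * (Real.exp 1 * (1 + 4 * A / Real.pi)) ^ (2 * (N + 1)) with hD
  have hbd : ∀ l ∈ ball q s, l ≠ q → ‖l - q‖ ^ (4 * (N + 1)) * ‖F l‖ ≤ D := by
    intro l hl hlq
    have hr0 : 0 < ‖l - q‖ := norm_pos_iff.2 (sub_ne_zero.2 hlq)
    have hr1 : ‖l - q‖ < s := by rwa [mem_ball, dist_eq_norm] at hl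
    have hsub : ball l ‖l - q‖ ⊆ ball q rho \ {q} := by
      intro z hz
      rw [mem_ball, dist_eq_norm] at hz
      refine ⟨?_, ?_⟩
      · rw [mem_ball, dist_eq_norm]
        have h1 : ‖z - q‖ ≤ ‖z - l‖ + ‖l - q‖ := by
          have h2 : z - q = (z - l) + (l - q) := by ring
          rw [h2]
          exact norm_add_le _ _
        linarith
      · rintro (rfl : z = q)
        rw [norm_sub_rev] at hz
        exact lt_irrefl _ hz
    refine area_bound hK hKn hA hvol hr0 (hr1.le.trans hs2) hC10 (hF.mono hsub)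
      fun z hz hzK => ?_
    refine (hb z (hsub hz).1 hzK).trans ?_
    have h3 : 0 ≤ (infDist z K)⁻¹ ^ N := by
      have h4 : 0 ≤ infDist z K := infDist_nonneg
      positivity
    exact mul_le_mul_of_nonneg_right (le_max_left _ _) h3
  set G : ℂ → ℂ := fun l => if l = q then 0 else (l - q) ^ (4 * (N + 1) + 1) * F l with hG
  have hGne : ∀ l, l ≠ q → G l = (l - q) ^ (4 * (N + 1) + 1) * F l := fun l hl => by
    simp [hG, hl]
  refine ⟨s, hs0, G, ?_, fun l _ hl => hGne l hl⟩
  rw [← Complex.differentiableOn_compl_singleton_and_continuousAt_iff (ball_mem_nhds q hs0)]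
  refine ⟨?_, ?_⟩
  · have h1 : DifferentiableOn ℂ (fun l => (l - q) ^ (4 * (N + 1) + 1) * F l)
        (ball q s \ {q}) := by
      refine DifferentiableOn.mul (by fun_prop) (hF.mono ?_)
      exact sdiff_le_sdiff_right (ball_subset_ball (by linarith))
    exact h1.congr fun l hl => hGne l hl.2
  · have hGq : G q = 0 := by simp [hG]
    unfold ContinuousAt
    rw [hGq]
    have hlim : Tendsto (fun l : ℂ => D * ‖l - q‖) (𝓝 q) (𝓝 0) := by
      have h5 : Continuous fun l : ℂ => D * ‖l - q‖ := by fun_prop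
      have h6 := h5.tendsto q
      simpa using h6
    refine squeeze_zero_norm' ?_ hlim
    filter_upwards [ball_mem_nhds q hs0] with l hl
    by_cases hlq : l = q
    · rw [hlq, hGq]
      simp
    · rw [hGne l hlq, norm_mul, norm_pow, pow_succ]
      have h7 := mul_le_mul_of_nonneg_right (hbd l hl hlq) (norm_nonneg (l - q))
      linarith [h7]

end Pool.Agent.TBirR
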