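import Pool.Agent.TBirG.Main

/-!
# The area of a neighbourhood of the curve

Paper proof. `g t = phi (exp (t I))` is `C^1` and `2 pi`-periodic on `ℝ`, so it is Lipschitz with some
constant `K` (see the proof of `dense_J` in TBirG/Rng for the differentiability; bound of `deriv g` on the
compact interval `[0, 2 pi]`, or `AnalyticOnNhd` and compactness). Given `0 < eps ≤ 1` let
`n = ⌈2 pi / eps⌉₊` and `t_j = j * eps` for `j ≤ n`. If `infDist l (J phi) ≤ eps` there is a point
`exp (t I)` of the circle with `0 ≤ t ≤ 2 pi` and `dist l (g t) ≤ eps` (`J phi` is compact and not empty),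
and `j ≤ n` with `|t - t_j| ≤ eps`, so `dist l (g t_j) ≤ (1 + K) eps`. So the set is in the union of
`n + 1` closed balls of radius `(1 + K) eps`, of area `pi (1 + K)^2 eps^2` each (`Complex.volume_closedBall`)
and `n + 1 ≤ 2 pi / eps + 2 ≤ (2 pi + 2) / eps`.
-/

set_option autoImplicit false

open MeasureTheory Complex Set Filter Topology Metric AddCircle
open scoped ComplexConjugate InnerProductSpace ENNReal

namespace Pool.Agent.TBirR

open Pool.Agent.TBir

private theorem lip_curve {phi : ℂ → ℂ} (hphi : AnalyticOnNhd ℂ phi (sphere 0 1)) :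
    ∃ K : ℝ, 0 ≤ K ∧ ∀ s t : ℝ,
      dist (phi (exp (s * I))) (phi (exp (t * I))) ≤ K * |s - t| := by
  have hmem : ∀ t : ℝ, exp (t * I) ∈ sphere (0 : ℂ) 1 := fun t => by
    rw [mem_sphere_zero_iff_norm, Complex.norm_exp_ofReal_mul_I]
  have hder : ∀ t : ℝ, HasDerivAt (fun t : ℝ => phi (exp (t * I)))
      (deriv phi (exp (t * I)) * (exp (t * I) * I)) t := by
    intro t
    have h1 : HasDerivAt phi (deriv phi (exp (t * I))) (exp (t * I)) :=
      (hphi _ (hmem t)).differentiableAt.hasDerivAt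
    have h2 : HasDerivAt (fun t : ℝ => exp ((t : ℂ) * I)) (exp (t * I) * I) t := by
      have h3 : HasDerivAt (fun t : ℝ => (t : ℂ) * I) I t := by
        simpa using (Complex.ofRealCLM.hasDerivAt (x := t)).mul_const I
      exact h3.cexp
    exact h1.comp_of_eq t h2 rfl
  obtain ⟨K, hK⟩ : ∃ K : ℝ, ∀ z ∈ sphere (0 : ℂ) 1, ‖deriv phi z‖ ≤ K := by
    have hc : ContinuousOn (fun z => ‖deriv phi z‖) (sphere 0 1) :=
      (hphi.deriv.continuousOn).norm
    obtain ⟨K, hK⟩ := (isCompact_sphere (0 : ℂ) 1).bddAbove_image hc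
    exact ⟨K, fun z hz => hK ⟨z, hz, rfl⟩⟩
  refine ⟨max K 0, le_max_right _ _, fun s t => ?_⟩
  have h := (convex_univ (𝕜 := ℝ) (E := ℝ)).norm_image_sub_le_of_norm_hasDerivWithin_le
    (f := fun t : ℝ => phi (exp (t * I))) (C := max K 0)
    (fun x _ => (hder x).hasDerivWithinAt) (fun x _ => ?_) (mem_univ t) (mem_univ s)
  · rw [dist_eq_norm]
    simpa [Real.norm_eq_abs] using h
  · rw [norm_mul, norm_mul, Complex.norm_exp_ofReal_mul_I, Complex.norm_I, mul_one, mul_one]
    exact (hK _ (hmem x)).trans (le_max_left _ _)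

theorem vol_nbhd {phi : ℂ → ℂ} (hphi : AnalyticOnNhd ℂ phi (sphere 0 1)) :
    ∃ A : ℝ, 0 < A ∧ ∀ eps : ℝ, 0 < eps → eps ≤ 1 →
      volume {l : ℂ | infDist l (J phi) ≤ eps} ≤ ENNReal.ofReal (A * eps) := by
  obtain ⟨K, hK0, hK⟩ := lip_curve hphi
  have hpi := Real.pi_pos
  refine ⟨(2 * Real.pi + 2) * (Real.pi * (1 + K) ^ 2), by positivity, fun eps he he1 => ?_⟩
  set n : ℕ := ⌈2 * Real.pi / eps⌉₊ with hn
  have hJc : IsCompact (J phi) := (isCompact_sphere 0 1).image_of_continuousOn hphi.continuousOn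
  have hJn : (J phi).Nonempty := ⟨phi 1, 1, by simp, rfl⟩
  have hsub : {l : ℂ | infDist l (J phi) ≤ eps} ⊆
      ⋃ j ∈ Finset.range (n + 1), closedBall (phi (exp (((j * eps : ℝ) : ℂ) * I))) ((1 + K) * eps) := by
    intro l hl
    obtain ⟨_, ⟨z, hz, rfl⟩, hzl⟩ := hJc.exists_infDist_eq_dist hJn l
    rw [mem_setOf_eq, hzl] at hl
    -- the argument of `z`
    obtain ⟨t, ht0, ht1, rfl⟩ : ∃ t : ℝ, 0 ≤ t ∧ t ≤ 2 * Real.pi ∧ exp (t * I) = z := by
      have hz1 : ‖z‖ = 1 := by simpa using hz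
      have hza : exp ((arg z : ℂ) * I) = z := by
        have := Complex.norm_mul_exp_arg_mul_I z
        rwa [hz1, ofReal_one, one_mul] at this
      by_cases h : 0 ≤ arg z
      · exact ⟨arg z, h, by linarith [Complex.arg_le_pi z], hza⟩
      · refine ⟨arg z + 2 * Real.pi, by linarith [Complex.neg_pi_lt_arg z], by linarith, ?_⟩
        push_cast
        rw [add_mul, Complex.exp_add, Complex.exp_two_pi_mul_I, mul_one, hza]
    have hj0 : 0 ≤ t / eps := by positivity
    have hj1 : (⌊t / eps⌋₊ : ℝ) ≤ t / eps := Nat.floor_le hj0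
    have hj2 : t / eps < ⌊t / eps⌋₊ + 1 := Nat.lt_floor_add_one _
    have hjn : ⌊t / eps⌋₊ < n + 1 := by
      have h1 : t / eps ≤ 2 * Real.pi / eps := by gcongr
      have h2 : (⌊t / eps⌋₊ : ℝ) ≤ n := hj1.trans (h1.trans (Nat.le_ceil _))
      exact Nat.lt_succ_of_le (by exact_mod_cast h2)
    refine mem_iUnion₂.mpr ⟨⌊t / eps⌋₊, Finset.mem_range.mpr hjn, ?_⟩
    rw [mem_closedBall]
    have hd : |t - ⌊t / eps⌋₊ * eps| ≤ eps := by
      have h3 : (⌊t / eps⌋₊ : ℝ) * eps ≤ t := (le_div_iff₀ he).mp hj1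
      have h4 : t < (⌊t / eps⌋₊ + 1) * eps := (div_lt_iff₀ he).mp hj2
      rw [abs_of_nonneg (by linarith)]
      linarith
    have h5 := hK t (⌊t / eps⌋₊ * eps)
    have h6 : K * |t - ⌊t / eps⌋₊ * eps| ≤ K * eps := by gcongr
    calc dist l (phi (exp (((⌊t / eps⌋₊ * eps : ℝ) : ℂ) * I)))
        ≤ dist l (phi (exp (t * I))) + dist (phi (exp (t * I)))
            (phi (exp (((⌊t / eps⌋₊ * eps : ℝ) : ℂ) * I))) := dist_triangle _ _ _
      _ ≤ eps + K * eps := add_le_add hl (h5.trans h6)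
      _ = (1 + K) * eps := by ring
  have hnle : ((n : ℝ) + 1) ≤ (2 * Real.pi + 2) / eps := by
    have h1 : (n : ℝ) < 2 * Real.pi / eps + 1 := Nat.ceil_lt_add_one (by positivity)
    have h2 : (1 : ℝ) ≤ 1 / eps := by rw [le_div_iff₀ he]; linarith
    have h3 : (2 * Real.pi + 2) / eps = 2 * Real.pi / eps + 1 / eps + 1 / eps := by ring
    rw [h3]; linarith
  calc volume {l : ℂ | infDist l (J phi) ≤ eps}
      ≤ volume (⋃ j ∈ Finset.range (n + 1),
          closedBall (phi (exp (((j * eps : ℝ) : ℂ) * I))) ((1 + K) * eps)) := measure_mono hsub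
    _ ≤ ∑ j ∈ Finset.range (n + 1),
          volume (closedBall (phi (exp (((j * eps : ℝ) : ℂ) * I))) ((1 + K) * eps)) :=
        measure_biUnion_finset_le _ _
    _ = ∑ j ∈ Finset.range (n + 1), ENNReal.ofReal (Real.pi * ((1 + K) * eps) ^ 2) := by
        refine Finset.sum_congr rfl fun j _ => ?_
        rw [Complex.volume_closedBall, ← ENNReal.ofReal_pow (by positivity),
          ENNReal.ofReal_mul hpi.le, mul_comm]
        congr 1
        rw [← NNReal.coe_real_pi, ENNReal.ofReal_coe_nnreal]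
    _ = ENNReal.ofReal (((n : ℝ) + 1) * (Real.pi * ((1 + K) * eps) ^ 2)) := by
        rw [Finset.sum_const, Finset.card_range, nsmul_eq_mul,
          ENNReal.ofReal_mul (p := (n : ℝ) + 1) (by positivity), ← ENNReal.ofReal_natCast,
          Nat.cast_add, Nat.cast_one]
    _ ≤ ENNReal.ofReal ((2 * Real.pi + 2) * (Real.pi * (1 + K) ^ 2) * eps) := by
        refine ENNReal.ofReal_le_ofReal ?_
        have h7 : ((n : ℝ) + 1) * (Real.pi * ((1 + K) * eps) ^ 2) ≤
            (2 * Real.pi + 2) / eps * (Real.pi * ((1 + K) * eps) ^ 2) := by gcongr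
        refine h7.trans (le_of_eq ?_)
        field_simp

end Pool.Agent.TBirR
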