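import Pool.Agent.TBirG.Main

/-!
# Winding numbers on both sides of a simple point of the curve

Paper proof. `z0` simple: `dslope phi z0` has no zero on the circle (`dslope_ne`) and an integral winding
number `m` (`wind_int`). For `z` near `z0` in the annulus `‖dslope phi z w - dslope phi z0 w‖` is small
uniformly for `w` on the circle (`T_qs_diff`/`qs_diff` of TBirG/Qs: `qs phi` is differentiable, hence
continuous, at `z0` as a map to `CT`, and `qs phi z` is the restriction of `dslope phi z` to the circle), so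
`wind (dslope phi z) = m` and `dslope phi z` has no zero on the circle (`wind_near`).
`phi w - phi z = (w - z) * dslope phi z w` (`sub_smul_dslope`). If `‖z‖ ≠ 1` then `phi z ∉ J phi` and
`wd phi (phi z) = m + (if ‖z‖ < 1 then 1 else 0)` (`wind_mul`, `wind_sub_const`).
`Inn phi (phi z0) ↔ 0 ≤ m`: as in the proof of `wind_dslope` in TBirG/Fr, for `r < 1` near `1`
`wind (phi (r ·) - phi z0) = wind (dslope phi z0 (r ·)) + 0 = m` (`wind_dil`, `wind_lin`).
-/

set_option autoImplicit false

open MeasureTheory Complex Set Filter Topology Metric AddCircle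
open scoped ComplexConjugate InnerProductSpace ENNReal

namespace Pool.Agent.TBirR

open Pool.Agent.TBir Pool.Agent.TBirG

/-- For `r < 1` near `1` the winding number of `phi (r ·) - phi z0` is that of the difference
quotient at the simple point `z0`. -/
private theorem wind_inner {d : ℝ} (hd : 0 < d) {phi : ℂ → ℂ}
    (hphi : DifferentiableOn ℂ phi (ann d)) {z0 : ℂ} (h : Simple phi z0) :
    ∀ᶠ r : ℝ in 𝓝[<] 1, (wind fun w => phi (r * w) - phi z0) = wind (dslope phi z0) := by
  have hza := sphere_mem_ann hd h.1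
  have hg := dslope_diff hphi hza
  have h1 := (wind_dil (analyticOnNhd_sphere hd hg) (fun z hz => dslope_ne h hz)).filter_mono
    (nhdsWithin_le_nhds (s := Iio (1 : ℝ)))
  have h2 : ∀ᶠ r : ℝ in 𝓝[<] 1, r < 1 := self_mem_nhdsWithin
  have h3 : ∀ᶠ r : ℝ in 𝓝[<] 1, 0 < r :=
    nhdsWithin_le_nhds (Ioi_mem_nhds (by norm_num))
  filter_upwards [h1, h2, h3] with r hr hr1 hr0
  obtain ⟨ha, hb, hc⟩ := hr
  have hrn : ‖z0‖ ≠ r := by rw [h.1]; exact hr1.ne'
  have e1 : (fun w => phi (r * w) - phi z0) =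
      fun w => dslope phi z0 (r * w) * ((r : ℂ) * w - z0) := by
    funext w
    have := sub_smul_dslope phi z0 ((r : ℂ) * w)
    rw [smul_eq_mul] at this
    rw [← this]
    ring
  have e2 := wind_mul (f := fun w => dslope phi z0 (r * w)) (g := fun w => (r : ℂ) * w - z0) ha
    (fun z _ => (analyticAt_const.mul analyticAt_id).sub analyticAt_const) hb
    (fun z hz h0 => by
      rw [mem_sphere_zero_iff_norm] at hz
      apply hrn
      rw [← sub_eq_zero.1 h0, norm_mul, hz, mul_one, Complex.norm_real, Real.norm_eq_abs,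
        abs_of_pos hr0])
  rw [e1, e2, hc, wind_lin hr0 hrn, if_neg (by rw [h.1]; linarith), add_zero]

/-- The difference quotients at the points near the simple point `z0`. -/
private theorem near_dslope {d : ℝ} (hd : 0 < d) (hd1 : d < 1) {phi : ℂ → ℂ}
    (hphi : DifferentiableOn ℂ phi (ann d)) {z0 : ℂ} (h : Simple phi z0) :
    ∃ s > 0, ball z0 s ⊆ ann d ∧ ∀ z ∈ ball z0 s, ∀ w ∈ sphere (0 : ℂ) 1,
      ‖dslope phi z w - dslope phi z0 w‖ < ‖dslope phi z0 w‖ := by
  have hza := sphere_mem_ann hd h.1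
  have hza2 := sphere_mem_ann (half_pos hd) h.1
  have hg := dslope_diff hphi hza
  obtain ⟨r, hr, hrs⟩ := Metric.isOpen_iff.1 (isOpen_ann (d / 2)) z0 hza2
  have hc : ContinuousOn (fun w => ‖dslope phi z0 w‖) (sphere (0 : ℂ) 1) :=
    (hg.continuousOn.mono fun w hw => mem_sphere_ann hd hw).norm
  obtain ⟨w0, hw0, hmin⟩ := (isCompact_sphere (0 : ℂ) 1).exists_isMinOn
    ⟨z0, by simpa using h.1⟩ hc
  have hpos : 0 < ‖dslope phi z0 w0‖ := norm_pos_iff.2 (dslope_ne h hw0)
  have hcont : ContinuousAt (qs phi) z0 :=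
    ((qs_diff hd hd1 hphi hrs).differentiableAt (ball_mem_nhds z0 hr)).continuousAt
  obtain ⟨s, hs, hs'⟩ := Metric.continuousAt_iff.1 hcont _ hpos
  refine ⟨min s r, lt_min hs hr, ?_, ?_⟩
  · exact (ball_subset_ball (min_le_right _ _)).trans (hrs.trans (ann_half hd))
  · intro z hz w hw
    have hz1 : dist z z0 < s := lt_of_lt_of_le (mem_ball.1 hz) (min_le_left _ _)
    have hz2 : z ∈ ann d := ann_half hd (hrs (ball_subset_ball (min_le_right _ _) hz))
    have hd1' := hs' hz1
    obtain ⟨x, hx⟩ := exists_e (z := w) (by simpa using hw)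
    have e1 : qs phi z x = dslope phi z w := by
      rw [qs_apply hd hd1 hphi hz2, hx, dslope_symm]
    have e2 : qs phi z0 x = dslope phi z0 w := by
      rw [qs_apply hd hd1 hphi hza, hx, dslope_symm]
    have h3 : dist (qs phi z x) (qs phi z0 x) ≤ dist (qs phi z) (qs phi z0) :=
      ContinuousMap.dist_apply_le_dist x
    rw [e1, e2, dist_eq_norm (dslope phi z w)] at h3
    exact lt_of_lt_of_le (lt_of_le_of_lt h3 hd1') (hmin hw)

theorem wd_simple {d : ℝ} (hd : 0 < d) (hd1 : d < 1) {phi : ℂ → ℂ}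
    (hphi : DifferentiableOn ℂ phi (ann d)) {z0 : ℂ} (h : Simple phi z0) :
    ∃ m : ℤ, (Inn phi (phi z0) ↔ 0 ≤ m) ∧ ∃ s > 0, ball z0 s ⊆ ann d ∧
      ∀ z ∈ ball z0 s, ‖z‖ ≠ 1 → phi z ∉ J phi ∧
        wd phi (phi z) = (m : ℂ) + (if ‖z‖ < 1 then 1 else 0) := by
  have hza := sphere_mem_ann hd h.1
  have hg := dslope_diff hphi hza
  have han := analyticOnNhd_sphere hd hg
  obtain ⟨m, hm⟩ := wind_int han fun z hz => dslope_ne h hz
  refine ⟨m, ?_, ?_⟩
  · have h1 := wind_inner hd hphi h
    constructor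
    · intro hN
      obtain ⟨r, hr1, hr2⟩ := (h1.and hN).exists
      rw [hr1, hm] at hr2
      simpa using hr2
    · intro hm0
      filter_upwards [h1] with r hr
      rw [hr, hm]
      simpa using hm0
  · obtain ⟨s, hs, hsa, hs1⟩ := near_dslope hd hd1 hphi h
    refine ⟨s, hs, hsa, fun z hz hz1 => ?_⟩
    have hgz := dslope_diff hphi (hsa hz)
    have hanz := analyticOnNhd_sphere hd hgz
    have hne : ∀ w ∈ sphere (0 : ℂ) 1, dslope phi z w ≠ 0 := by
      intro w hw h0
      have h2 := hs1 z hz w hw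
      rw [h0, zero_sub, norm_neg] at h2
      exact lt_irrefl _ h2
    have hw := wind_near hanz han fun w hw => hs1 z hz w hw
    have hsub : ∀ w, phi w - phi z = (w - z) * dslope phi z w := by
      intro w
      have := sub_smul_dslope phi z w
      rw [smul_eq_mul] at this
      exact this.symm
    have hwz : ∀ w ∈ sphere (0 : ℂ) 1, w - z ≠ 0 := by
      intro w hw h0
      rw [mem_sphere_zero_iff_norm] at hw
      apply hz1
      rw [← sub_eq_zero.1 h0]
      exact hw
    constructor
    · rintro ⟨w, hw, he⟩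
      have h2 := hsub w
      rw [he, sub_self] at h2
      exact mul_ne_zero (hwz w hw) (hne w hw) h2.symm
    · have e1 : (fun w => phi w - phi z) = fun w => (w - z) * dslope phi z w := funext hsub
      rw [wd, e1, wind_mul (f := fun w => w - z) (g := dslope phi z)
        (fun w _ => analyticAt_id.sub analyticAt_const) hanz hwz hne, wind_sub_const hz1, hw, hm,
        add_comm]

theorem inn_of_wd {phi : ℂ → ℂ} (hphi : AnalyticOnNhd ℂ phi (sphere 0 1)) {l : ℂ}
    (hl : l ∉ J phi) (h : 0 ≤ (wd phi l).re) : Inn phi l := by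
  have h1 := (wind_dil (g := fun w => phi w - l) (fun z hz => (hphi z hz).sub analyticAt_const)
    (fun z hz h0 => hl ⟨z, hz, sub_eq_zero.1 h0⟩)).filter_mono
    (nhdsWithin_le_nhds (s := Iio (1 : ℝ)))
  filter_upwards [h1] with r hr
  rw [hr.2.2]
  exact h

end Pool.Agent.TBirR
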