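import Pool.Agent.TBirR.Grow
import Pool.Agent.TBirR.Vol
import Pool.Agent.TBirR.Pole
import Pool.Agent.TBirR.Inj
import Pool.Agent.TBirR.Wds

/-!
# A vector in all ranges is zero, if the winding numbers are nonnegative
-/

set_option autoImplicit false

open MeasureTheory Complex Set Filter Topology Metric AddCircle
open scoped ComplexConjugate InnerProductSpace ENNReal

namespace Pool.Agent.TBirR

open Pool.Agent.TBir Pool.Agent.TBirG

/-- Liouville: the case without special points. -/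
theorem zero_of_ext {phi : ℂ → ℂ} (hpa : AnalyticOnNhd ℂ phi (sphere 0 1)) {f : Hardy}
    {hh : ℂ → Hardy}
    (hh1 : ∀ l ∉ J phi, (T (sy phi 1) - l • (1 : Hardy →L[ℂ] Hardy)) (hh l) = f)
    (hext : ∀ z : ℂ, ‖z‖ < 1 → ∀ l0 : ℂ, ∃ r > 0, ∃ G : ℂ → ℂ, DifferentiableOn ℂ G (ball l0 r) ∧
      ∀ l ∈ ball l0 r, l ∉ J phi → G l = ev z (hh l)) : f = 0 := by
  obtain ⟨R, hR⟩ := wd_large hpa
  have key : ∀ z : ℂ, ‖z‖ < 1 → ∀ l ∉ J phi, ev z (hh l) = 0 := by
    intro z hz l hl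
    obtain ⟨F', hF', hF⟩ := glue (dense_J hpa) isOpen_univ (F := fun l => ev z (hh l))
      (fun l0 _ => hext z hz l0)
    have hd : Differentiable ℂ F' := differentiableOn_univ.1 hF'
    have ht : Tendsto F' (cocompact ℂ) (𝓝 0) := by
      rw [tendsto_zero_iff_norm_tendsto_zero]
      have hb : ∀ᶠ w in cocompact ℂ, ‖F' w‖ ≤ ‖ev z‖ * (‖f‖ / (‖w‖ - ‖T (sy phi 1)‖)) := by
        have h1 : ∀ᶠ w in cocompact ℂ, max R ‖T (sy phi 1)‖ < ‖w‖ :=
          (tendsto_norm_cocompact_atTop (E := ℂ)).eventually_gt_atTop _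
        filter_upwards [h1] with w hw
        have hwJ := (hR w ((le_max_left _ _).trans_lt hw)).1
        rw [hF w (mem_univ w) hwJ]
        refine ((ev z).le_opNorm _).trans ?_
        exact mul_le_mul_of_nonneg_left
          (LiouA_bound (hh1 w hwJ) ((le_max_right _ _).trans_lt hw)) (norm_nonneg _)
      refine squeeze_zero' (Eventually.of_forall fun _ => norm_nonneg _) hb ?_
      have h2 : Tendsto (fun w : ℂ => ‖w‖ - ‖T (sy phi 1)‖) (cocompact ℂ) atTop :=
        tendsto_atTop_add_const_right _ _ (tendsto_norm_cocompact_atTop (E := ℂ))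
      have h3 : Tendsto (fun w : ℂ => ‖f‖ / (‖w‖ - ‖T (sy phi 1)‖)) (cocompact ℂ) (𝓝 0) :=
        h2.const_div_atTop _
      simpa using h3.const_mul ‖ev z‖
    rw [← hF l (mem_univ l) hl]
    exact hd.apply_eq_of_tendsto_cocompact l ht
  obtain ⟨l, hl⟩ : ∃ l : ℂ, R < ‖l‖ := by
    refine ⟨((|R| + 1 : ℝ) : ℂ), ?_⟩
    rw [Complex.norm_real, Real.norm_eq_abs, abs_of_pos (by positivity)]
    linarith [le_abs_self R]
  have hlJ := (hR l hl).1
  have h0 : hh l = 0 := ev_ext isOpen_ball ⟨0, mem_ball_self one_pos⟩ (subset_refl _)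
    (fun z hz => key z (by simpa using hz) l hlJ)
  rw [← hh1 l hlJ, h0, map_zero]

theorem prod_diff (L : List ℂ) : Differentiable ℂ fun l : ℂ => (L.map fun q => l - q).prod := by
  induction L with
  | nil => simp
  | cons q L ih =>
    simp only [List.map_cons, List.prod_cons]
    exact (differentiable_id.sub_const q).mul ih

/-- Poles: multiply by `T - q`. -/
theorem zero_of_list {phi : ℂ → ℂ} (hpa : AnalyticOnNhd ℂ phi (sphere 0 1)) (L : List ℂ) :
    (∀ q ∈ L, ∀ v, T (sy phi 1) v = q • v → v = 0) → ∀ (f : Hardy) (hh : ℂ → Hardy),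
      (∀ l ∉ J phi, (T (sy phi 1) - l • (1 : Hardy →L[ℂ] Hardy)) (hh l) = f) →
      (∀ z : ℂ, ‖z‖ < 1 → ∀ l0 : ℂ, ∃ r > 0, ∃ G : ℂ → ℂ, DifferentiableOn ℂ G (ball l0 r) ∧
        ∀ l ∈ ball l0 r, l ∉ J phi → G l = (L.map fun q => l - q).prod * ev z (hh l)) → f = 0 := by
  induction L with
  | nil =>
    intro _ f hh h1 h2
    refine zero_of_ext hpa h1 fun z hz l0 => ?_
    obtain ⟨r, hr, G, hG, hG'⟩ := h2 z hz l0
    exact ⟨r, hr, G, hG, fun l hl hlJ => by rw [hG' l hl hlJ]; simp⟩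
  | cons q L ih =>
    intro hinj f hh h1 h2
    have h3 : T (sy phi 1) f - q • f = 0 := by
      refine ih (fun p hp => hinj p (List.mem_cons_of_mem _ hp)) _ (fun l => (l - q) • hh l + f)
        (fun l hl => ?_) fun z hz l0 => ?_
      · have e1 := h1 l hl
        change T (sy phi 1) ((l - q) • hh l + f) - l • ((l - q) • hh l + f) =
          T (sy phi 1) f - q • f
        change T (sy phi 1) (hh l) - l • hh l = f at e1
        have e2 : T (sy phi 1) (hh l) = f + l • hh l := by rw [← e1]; abel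
        rw [map_add, map_smul, e2]
        module
      · obtain ⟨r, hr, G, hG, hG'⟩ := h2 z hz l0
        refine ⟨r, hr, fun l => G l + (L.map fun q => l - q).prod * ev z f,
          hG.add ((prod_diff L).differentiableOn.mul_const _), fun l hl hlJ => ?_⟩
        simp only
        rw [hG' l hl hlJ, map_add, map_smul, smul_eq_mul, List.map_cons, List.prod_cons]
        ring
    exact hinj q List.mem_cons_self f (sub_eq_zero.1 h3)

/-- `T - q` is injective. -/
theorem inj_of_nonneg {phi : ℂ → ℂ} (hpa : AnalyticOnNhd ℂ phi (sphere 0 1)) (hNC : NC phi)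
    {Phi : CT} (hPhi : ∀ x, Phi x = phi (e x)) (hwd : ∀ l ∉ J phi, 0 ≤ (wd phi l).re) (q : ℂ)
    {v : Hardy} (hv : T Phi v = q • v) : v = 0 := by
  obtain ⟨rho, d, m, M, x, k, hrho, hd, hd1, hm, hfz⟩ := exists_fz hpa hNC q
  have hne : ∀ psi : ℂ → ℂ, (∀ w ∈ ann d, m ≤ ‖psi w‖ ∧ ‖psi w‖ ≤ M) → ∀ w ∈ ann d,
      psi w ≠ 0 := fun psi h w hw h0 => by
    have := (h w hw).1
    rw [h0, norm_zero] at this
    linarith
  have hk : 0 ≤ x + k := by
    obtain ⟨l, hl, hlJ⟩ := (dense_J hpa).inter_open_nonempty _ isOpen_ball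
      ⟨q, mem_ball_self hrho⟩
    obtain ⟨z, psi, h1, h2, h3, h4, -, h5⟩ := hfz l hl
    have e1 := hwd l hlJ
    rw [wd_of_fac hd hlJ h1 (hne psi h2) h3 h4 h5, Complex.intCast_re] at e1
    have e2 : 0 ≤ x + ((Finset.univ.filter fun i => ‖z i‖ < 1).card : ℤ) := by exact_mod_cast e1
    have e3 : ((Finset.univ.filter fun i => ‖z i‖ < 1).card : ℤ) ≤ k := by
      have := Finset.card_filter_le (Finset.univ : Finset (Fin k)) fun i => ‖z i‖ < 1
      rw [Finset.card_univ, Fintype.card_fin] at this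
      exact_mod_cast this
    linarith
  obtain ⟨z, psi, h1, h2, h3, h4, h6, h5⟩ := hfz q (mem_ball_self hrho)
  refine inj_of_fac (psi := psi) (analyticOnNhd_sphere hd h1)
    (fun w hw => hne psi h2 w (mem_sphere_ann hd hw)) h3 (h6 rfl) hk (fun t => ?_) hv
  rw [hPhi]
  exact h5 (e t) (e_mem_ann hd t)

/-- A vector in all ranges is zero. -/
theorem eq_zero_fin {d : ℝ} (hd : 0 < d) (hd1 : d < 1) {phi : ℂ → ℂ}
    (hphi : DifferentiableOn ℂ phi (ann d)) {Phi : CT} (hPhi : ∀ x, Phi x = phi (e x))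
    (hsy : Phi = sy phi 1) (hNC : NC phi) (hwd : ∀ l ∉ J phi, 0 ≤ (wd phi l).re)
    (hE : {l : ℂ | ¬ Inn phi l}.Finite) {f : Hardy} (h : ∀ l ∉ J phi, InR phi f l) : f = 0 := by
  have hpa : AnalyticOnNhd ℂ phi (sphere 0 1) := analyticOnNhd_sphere hd hphi
  have hJc : IsClosed (J phi) := (isCompact_J hpa).isClosed
  have hJn : (J phi).Nonempty := ⟨phi 1, 1, by simp, rfl⟩
  choose! hh hh1 using h
  obtain ⟨A, hA, hvol⟩ := vol_nbhd hpa
  -- order of the pole
  have hpole : ∀ q : ℂ, ¬ Inn phi q → ∃ n : ℕ, ∀ z : ℂ, ‖z‖ < 1 → ∃ r > 0, ∃ G : ℂ → ℂ,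
      DifferentiableOn ℂ G (ball q r) ∧ ∀ l ∈ ball q r, l ∉ J phi →
        G l = (l - q) ^ n * ev z (hh l) := by
    intro q hq
    have hqJ : q ∈ J phi := by
      by_contra hqJ
      exact hq (inn_of_wd hpa hqJ (hwd q hqJ))
    obtain ⟨rho, C, N, hrho, hC, hgr⟩ := grow hpa hNC hPhi q
    obtain ⟨n, hn⟩ := pole_bound hJc hJn hA hvol N
    refine ⟨n, fun z hz => ?_⟩
    have h1 : ∀ᶠ l in 𝓝 q, l ∉ {l : ℂ | ¬ Inn phi l} \ {q} :=
      (hE.subset sdiff_subset).isClosed.isOpen_compl.mem_nhds fun h => h.2 rfl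
    obtain ⟨rho', hrho', h2⟩ := Metric.eventually_nhds_iff_ball.1 h1
    obtain ⟨r, hr⟩ : ∃ r : ℝ, r = min rho rho' := ⟨_, rfl⟩
    have hr0 : 0 < r := by rw [hr]; exact lt_min hrho hrho'
    obtain ⟨F', hF', hF⟩ := glue (dense_J hpa) (isOpen_ball.sdiff isClosed_singleton)
      (O := ball q r \ {q}) (F := fun l => ev z (hh l)) (fun l0 hl0 => by
        have h3 := h2 l0 (ball_subset_ball (by rw [hr]; exact min_le_right _ _) hl0.1)
        have h4 : Inn phi l0 := by
          by_contra h5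
          exact h3 ⟨h5, hl0.2⟩
        exact ext_loc hd hd1 hphi hNC hh1 hz h4)
    obtain ⟨s, hs, G, hG, hG'⟩ := hn q r (‖ev z‖ * (C * ‖f‖)) F' hr0 hF' fun l hl hlJ => by
      have hlq : l ≠ q := fun h => hlJ (h ▸ hqJ)
      rw [hF l ⟨hl, hlq⟩ hlJ]
      have h5 := hgr l (ball_subset_ball (by rw [hr]; exact min_le_left _ _) hl) hlJ (hwd l hlJ)
        (hh l)
      rw [hsy, hh1 l hlJ] at h5
      refine ((ev z).le_opNorm _).trans ?_
      refine (mul_le_mul_of_nonneg_left h5 (norm_nonneg _)).trans (le_of_eq ?_)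
      ring
    refine ⟨min s r, lt_min hs hr0, G, hG.mono (ball_subset_ball (min_le_left _ _)),
      fun l hl hlJ => ?_⟩
    have hlq : l ≠ q := fun h => hlJ (h ▸ hqJ)
    rw [hG' l (ball_subset_ball (min_le_left _ _) hl) hlq,
      hF l ⟨ball_subset_ball (min_le_right _ _) hl, hlq⟩ hlJ]
  choose! n hn using hpole
  obtain ⟨E, hE'⟩ : ∃ E : Finset ℂ, ∀ l, l ∈ E ↔ ¬ Inn phi l :=
    ⟨hE.toFinset, fun l => by rw [hE.mem_toFinset]; rfl⟩
  obtain ⟨L, hL⟩ : ∃ L : List ℂ, ∀ l : ℂ, (L.map fun q => l - q).prod =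
      ∏ q ∈ E, (l - q) ^ n q := by
    clear hE' hn
    induction E using Finset.induction_on with
    | empty => exact ⟨[], fun l => by simp⟩
    | insert a s ha ih =>
      obtain ⟨L, hL⟩ := ih
      refine ⟨List.replicate (n a) a ++ L, fun l => ?_⟩
      rw [List.map_append, List.prod_append, hL, Finset.prod_insert ha, List.map_replicate,
        List.prod_replicate]
  refine zero_of_list hpa L (fun q _ v hv => inj_of_nonneg hpa hNC hPhi hwd q (by rw [hsy, hv]))
    f hh hh1 fun z hz l0 => ?_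
  by_cases hl0 : Inn phi l0
  · obtain ⟨r, hr, G, hG, hG'⟩ := ext_loc hd hd1 hphi hNC hh1 hz hl0
    exact ⟨r, hr, fun l => (L.map fun q => l - q).prod * G l,
      (prod_diff L).differentiableOn.mul hG, fun l hl hlJ => by simp only; rw [hG' l hl hlJ]⟩
  · obtain ⟨r, hr, G, hG, hG'⟩ := hn l0 hl0 z hz
    refine ⟨r, hr, fun l => (∏ q ∈ E.erase l0, (l - q) ^ n q) * G l, ?_, fun l hl hlJ => ?_⟩
    · refine DifferentiableOn.mul ?_ hG
      exact DifferentiableOn.fun_finsetProd fun i _ => (differentiableOn_id.sub_const _).pow _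
    · simp only
      rw [hG' l hl hlJ, hL, ← Finset.mul_prod_erase E (fun q => (l - q) ^ n q) ((hE' l0).2 hl0)]
      ring

end Pool.Agent.TBirR
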